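import Pool.Agent.Lib.MP_b5021c_nt.KE.H96.Kev

/-!
# MP_b5021c_nt, all `θ`, K EVEN without levels: the counterexample, every ray and every mutual pair

For a counterexample every ray has a drop at its load B, and for every mutual pair (loads B) the
closing A is one factor of class `V(j)` (rank `2j - 1`).
-/

namespace Pool.Agent.B5.KE

open scoped LaurentPolynomial
open Polynomial
open Pool.Agent.B5.Nr.Sch
open Pool.Agent.B5.H61 (CuspS)
open Pool.Agent.B5.Nr (TrezS)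

/-- A counterexample of rank `2j`. -/
structure Cex {P L : Type} [Fintype P] [DecidableEq P] [AddCommGroup L] [Module.Free ℤ L]
    [Module.Finite ℤ L] (phi : L →+ (P → ℤ)) (D : AO ℤ L) (q : ℤ[X]) (a : ℝ) (j : ℕ) : Prop where
  fp : FP phi D
  h0 : D.coeff 0 = toLaurent q
  hq : Qn q a
  ha : a ≤ 1 / 2
  hj : 2 ≤ j
  fr : Module.finrank ℤ L = 2 * j
  ih : ∀ K < 2 * j, Bnk K
  win : a⁻¹ - a < j

section

variable {P L : Type} [Fintype P] [DecidableEq P] [AddCommGroup L] [Module.Free ℤ L]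
  [Module.Finite ℤ L] {phi : L →+ (P → ℤ)} {D : AO ℤ L} {q : ℤ[X]} {a : ℝ} {j : ℕ}

theorem Cex.fd (hFD : FDS) (H : Cex phi D q a j) {S : L} {f : ℤ[X]} {e : (RO ℤ)ˣ} {i0 : P}
    (h : co phi i0 S = 1) (hS : Ray D S) (hR : RN D S q f e a) {k : ℕ} (hk : 1 ≤ k) :
    ∃ (c : RO ℤ) (n : ℕ) (G : Fin n → AO ℤ (Ker (co phi i0))), FD phi D S i0 (ld e k) h c n G :=
  hFD ℤ P L phi D S i0 (ld e k) h
    ⟨H.fp.dd, by rw [H.fr]; have := H.hj; omega, hS, h, V0_ne hR hk⟩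

/-- The load C, drop free. -/
theorem Cex.loadC (hMm : MmulS) (hMV : MVS) (hE1 : E1S) (hPc : PCZS) (hClp : ClpS) (hFD : FDS)
    (hSf : SfzS) (hCe : CeS) (H : Cex phi D q a j) {S : L} {f : ℤ[X]} {e : (RO ℤ)ˣ} {i0 : P}
    (h : co phi i0 S = 1) (hS : Ray D S) (hR : RN D S q f e a)
    (hdr : Module.finrank ℤ L = rk (supp (cl (co phi i0) S h (ld e 2) D)) + 1) :
    f.coeff 0 = 1 ∧ f.coeff 1 - q.coeff 1 ≤ j ∧ a < 1 / j := by
  have hIH1 : Bnk (2 * j - 1) := H.ih _ (by have := H.hj; omega)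
  obtain ⟨c, n, G, fd⟩ := H.fd hFD h hS hR (k := 2) (by norm_num)
  obtain ⟨hs, -⟩ := sf_kill hSf (k := 2) hR (by norm_num) (by norm_num) H.fp fd H.hj H.fr H.ha
    H.win H.ih (Or.inl hdr)
  obtain ⟨h5, h5', h6⟩ := neg_of hPc hE1 hMV hMm hClp (k := 2) hR (by norm_num) H.fp fd hs hdr
    H.hj H.fr hIH1
  rw [ev_split] at h6
  obtain ⟨h7, h8⟩ := hCe q f a j hR.loc hR.u H.hj h5 H.win h6
  exact ⟨h7, h8, h5'⟩

/-- EVERY RAY HAS A DROP AT ITS LOAD B. -/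
theorem Cex.drop (hMm : MmulS) (hMV : MVS) (hE1 : E1S) (hPc : PCZS) (hClp : ClpS) (hFD : FDS)
    (hSf : SfzS) (hTr : TrezS) (hWu : WuS) (hWe : WeS) (hCe : CeS) (hTsb : TsbS)
    (H : Cex phi D q a j) {S : L} {f : ℤ[X]} {e : (RO ℤ)ˣ} {i0 : P}
    (h : co phi i0 S = 1) (hS : Ray D S) (hR : RN D S q f e a) :
    Module.finrank ℤ L ≠ rk (supp (cl (co phi i0) S h (ld e 1) D)) + 1 := by
  intro hdr
  have hIH1 : Bnk (2 * j - 1) := H.ih _ (by have := H.hj; omega)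
  have hD := H.fp.dd
  have hj := H.hj
  obtain ⟨c, n, G, fd⟩ := H.fd hFD h hS hR (k := 1) (le_refl 1)
  have fd' : FD phi D S i0 (ld e 1) h c n G := fd
  rcases eq_or_lt_of_le hR.u with hu | hu
  · -- `u = 1`
    obtain ⟨hs, -⟩ := sf_kill hSf (k := 1) hR (le_refl 1) (fun _ => hu.symm) H.fp fd hj H.fr H.ha
      H.win H.ih (Or.inl hdr)
    obtain ⟨h5, -, h6⟩ := neg_of hPc hE1 hMV hMm hClp (k := 1) hR (le_refl 1) H.fp fd hs hdr hj
      H.fr hIH1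
    rw [ev_split, pow_one] at h6
    obtain ⟨E, -, hE0, hE1', -⟩ := typa hR.loc hu.symm hR.ne
    have h7 := hWe q f a j hR.loc hu.symm hj h5 H.win (by rw [← hE0]; exact hE1') h6
    exact n_ne_one hTr hD hS hR hu.symm H.fr hj H.ha H.win h7
  · -- `u ≥ 2`
    by_cases hs : snp phi S i0 G = ∅
    · obtain ⟨h5, -, h6⟩ := neg_of hPc hE1 hMV hMm hClp (k := 1) hR (le_refl 1) H.fp fd hs hdr hj
        H.fr hIH1
      rw [ev_split, pow_one] at h6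
      exact hWu q f a j hR.loc (by omega) hj h5 H.win h6
    · have hdr2 := hTsb P L phi D S i0 h c n G q f e a H.fp (by rw [H.fr]; omega) hS hR (by omega)
        fd' hdr (Finset.nonempty_iff_ne_empty.mpr hs)
      have := (H.loadC hMm hMV hE1 hPc hClp hFD hSf hCe h hS hR hdr2).1
      omega

/-- `U_S` of full rank is everything. -/
theorem US_top {S : L} {e : (RO ℤ)ˣ}
    (h : Module.finrank ℤ (US e S D) = Module.finrank ℤ L) (x : L) : x ∈ US e S D := by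
  have h1 := Submodule.finrank_quotient_add_finrank (US e S D)
  have h2 : Module.finrank ℤ (L ⧸ US e S D) = 0 := by omega
  rw [Module.finrank_eq_zero_iff_isTorsion] at h2
  obtain ⟨⟨n, hn⟩, h3⟩ := @h2 (Submodule.Quotient.mk x)
  have h4 : n • x ∈ US e S D := by
    rw [← Submodule.Quotient.mk_eq_zero, Submodule.Quotient.mk_smul]
    exact h3
  obtain ⟨m, hm, h5⟩ := h4
  refine ⟨m * n, mul_ne_zero hm (nonZeroDivisors.ne_zero hn), ?_⟩
  rw [mul_smul]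
  exact h5

/-- Full `U_S`: no drop. -/
theorem dr_of_US (hRkU : RkUSS) (hD : DD phi D) {S : L} (hS : Ray D S) {e : (RO ℤ)ˣ} {i0 : P}
    (h : co phi i0 S = 1) (hU : ∀ a ∈ supp D, a ∈ US e S D) :
    Module.finrank ℤ L = rk (supp (cl (co phi i0) S h e D)) + 1 := by
  rw [← hRkU ℤ P L phi D S i0 h e hD.inj hD.bin (hD.bin S hS.1)]
  exact (H78.finrank_top_of_supp hD _ hU).symm

/-- Every ray has a ray outside `U_S` (load B). -/
theorem Cex.outU (hRkU : RkUSS) (hE2 : E2S) (hMm : MmulS) (hMV : MVS) (hE1 : E1S)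
    (hPc : PCZS) (hClp : ClpS) (hFD : FDS)
    (hSf : SfzS) (hTr : TrezS) (hWu : WuS) (hWe : WeS) (hCe : CeS) (hTsb : TsbS)
    (H : Cex phi D q a j) {S : L} {f : ℤ[X]} {e : (RO ℤ)ˣ} (hS : Ray D S)
    (hR : RN D S q f e a) : ∃ T, Ray D T ∧ T ∉ US (ld e 1) S D := by
  by_contra hcon
  push Not at hcon
  have hD := H.fp.dd
  have hj := H.hj
  obtain ⟨-, -, -, -, hrk, -⟩ := hE2 ℤ P L phi D hD (by rw [H.fr]; omega)
  obtain ⟨i0, h⟩ := exists_port hD hS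
  apply H.drop hMm hMV hE1 hPc hClp hFD hSf hTr hWu hWe hCe hTsb h hS hR
  rw [← hRkU ℤ P L phi D S i0 h (ld e 1) hD.inj hD.bin (hD.bin S hS.1)]
  have h1 : Submodule.span ℤ {b | Ray D b} ≤ US (ld e 1) S D := Submodule.span_le.2 hcon
  have h2 : rk {b | Ray D b} ≤ Module.finrank ℤ (US (ld e 1) S D) := Submodule.finrank_mono h1
  rw [hrk] at h2
  exact le_antisymm h2 (Submodule.finrank_le _)

/-- A mutual pair of loads B: the facts. -/
structure MutPkg (phi : L →+ (P → ℤ)) (D : AO ℤ L) (q f : ℤ[X]) (a : ℝ) (j : ℕ) (S S1 : L)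
    (e e1 : (RO ℤ)ˣ) : Prop where
  u : f.coeff 0 = 1
  n : f.coeff 1 - q.coeff 1 = j
  aj : a < 1 / j
  cusp : ∀ z : ℂ, ‖z‖ = 1 → aeval z (q + X * f) ≠ 0
  oth : ∀ e'' : (RO ℤ)ˣ, e'' ≠ ld e 1 → ∀ b ∈ supp D, b ∈ US e'' S D
  fac : ∀ Y : Dp phi S S1, ∃ (c : RO ℤ) (G : AO ℤ (Ker (co phi Y.i0))), ClassV 1 c ∧
        cl (co phi Y.i0) S Y.h0 (-e) D = cst c * G ∧ DD (phO phi S Y.i0) G ∧
        ClassV j (G.coeff 0) ∧ Ray G Y.T ∧ c * G.coeff 0 = toLaurent (q - f) ∧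
        (∃ w : (RO ℤ)ˣ, (w : RO ℤ) * (c * G.coeff Y.T) = toLaurent ((1 + X) * f)) ∧
        ImS (phO phi S Y.i0) Y.T ∧ co (phO phi S Y.i0) Y.i1 = Y.k1

theorem Cex.pkg (hRkU : RkUSS) (hLmn : LMNS) (hMm : MmulS) (hMV : MVS) (hE1 : E1S)
    (hPc : PCZS) (hClp : ClpS) (hC0 : Coeff0S) (hG0 : G0S) (hI1 : Inj1S) (hRk : RkS)
    (hFD : FDS) (hWW : WWfS) (hRF : RayFacS) (hMug : MugS) (hMco : McoS) (hCu : CuspS)
    (hSf : SfzS) (hTr : TrezS) (hEvz : EvzS) (hCe : CeS) (hTsa : TsaS)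
    (H : Cex phi D q a j) {S S1 : L} {f : ℤ[X]} {e e1 : (RO ℤ)ˣ}
    (hR : RN D S q f e a) (hM : Mut D S S1 (ld e 1) e1) : MutPkg phi D q f a j S S1 e e1 := by
  have hD := H.fp.dd
  have hj := H.hj
  have fp := H.fp
  have hfr := H.fr
  have hS := hM.r0
  have h2 : 2 ≤ Module.finrank ℤ L := by omega
  have h4 : 4 ≤ Module.finrank ℤ L := by omega
  have hoth : ∀ e'' : (RO ℤ)ˣ, e'' ≠ ld e 1 → ∀ b ∈ supp D, b ∈ US e'' S D := by
    intro e'' he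
    exact hLmn ℤ P L phi D S S1 (ld e 1) e1 e'' hD.inj hD.bin hM.r0 hM.r1 hM.m0 hM.m1 he
  have hne2 : ld e 2 ≠ ld e 1 := by
    intro h5
    have h6 := congrArg (fun x : (RO ℤ)ˣ => (x : RO ℤ)) h5
    simp only [ld_val] at h6
    have h7 := mul_right_cancel₀ e.ne_zero h6
    have h8 := congrArg (fun p : RO ℤ => p.coeff 1) h7
    simp only [LaurentPolynomial.T_apply] at h8
    norm_num at h8
  have hneA : -e ≠ ld e 1 := by
    intro h5
    have h6 := kap_ld e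
    rw [h5] at h6
    exact kap_ne (mul_eq_right.mp h6)
  obtain ⟨Y0⟩ := (hMco ℤ P L phi D S S1 (ld e 1) _ hD.inj hD.bin hM).2.2.2
  have hdr2 := dr_of_US hRkU hD hS Y0.h0 (hoth _ hne2)
  obtain ⟨hu, hnj, haj⟩ := H.loadC hMm hMV hE1 hPc hClp hFD hSf hCe Y0.h0 hS hR hdr2
  obtain ⟨c, n, G, fd⟩ := H.fd hFD Y0.h0 hS hR (k := 1) (le_refl 1)
  obtain ⟨-, hbig⟩ := sf_kill hSf (k := 1) hR (le_refl 1) (fun _ => hu) fp fd hj hfr H.ha H.win
    H.ih (Or.inr ⟨S1, _, hM⟩)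
  have hzero := zero_B hMV hMm hR fd hbig
  obtain ⟨E, hE, hE0, hEpos, hEz⟩ := typa hR.loc hu hR.ne
  have hn1 := n_ne_one hTr hD hS hR hu hfr hj H.ha H.win
  have hn2 : 2 ≤ f.coeff 1 - q.coeff 1 := by omega
  obtain ⟨nu, hnu⟩ : ∃ nu : ℕ, (nu : ℤ) = f.coeff 1 - q.coeff 1 :=
    ⟨(f.coeff 1 - q.coeff 1).toNat, by omega⟩
  have hdrB : ∀ Y : Dp phi S S1,
      Module.finrank ℤ L ≠ rk (supp (cl (co phi Y.i0) S Y.h0 (ld e 1) D)) + 1 := by
    intro Y hdr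
    rw [← hRkU ℤ P L phi D S Y.i0 Y.h0 (ld e 1) hD.inj hD.bin (hD.bin S hS.1)] at hdr
    exact hM.m0 (US_top hdr.symm S1)
  have hfac : ∀ Y : Dp phi S S1, ∃ (c : RO ℤ) (G : AO ℤ (Ker (co phi Y.i0))), ClassV 1 c ∧
        cl (co phi Y.i0) S Y.h0 (-e) D = cst c * G ∧ DD (phO phi S Y.i0) G ∧
        ClassV nu (G.coeff 0) ∧ Ray G Y.T ∧ c * G.coeff 0 = toLaurent (q - f) ∧
        (∃ w : (RO ℤ)ˣ, (w : RO ℤ) * (c * G.coeff Y.T) = toLaurent ((1 + X) * f)) ∧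
        ImS (phO phi S Y.i0) Y.T ∧ co (phO phi S Y.i0) Y.i1 = Y.k1 := by
    intro Y
    have hdrA := dr_of_US hRkU hD hS Y.h0 (hoth _ hneA)
    refine fa1 hWW hRF hMug hMco hClp hE1 hC0 hG0 hI1 hMV hRk hFD P L phi D S S1 q f e _ a nu Y
      fp h2 hR hu hnu hM hdrA ?_
    intro c n G fd
    by_contra hs
    have h5 := hTsa P L phi D S Y.i0 Y.h0 c n G q f e a fp h4 hS hR hu hn2 fd hdrA
      (Finset.nonempty_iff_ne_empty.mpr hs)
    exact hdrB Y h5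
  have hnuj : nu = j := by
    obtain ⟨cA, GA, hcA, hclA, hDA, hVA, -⟩ := hfac Y0
    have h5 := hEvz nu (by omega) P _ (phO phi S Y0.i0) GA hDA hVA
    have h6 : Module.finrank ℤ (Ker (co phi Y0.i0)) ≤ 2 * nu := by exact_mod_cast h5
    have hker := finrank_ker hRk Y0.h0
    omega
  subst hnuj
  exact ⟨hu, hnu.symm, haj, fun z hz => cusp_m1 hCu hD h2 hR hM hzero hz, hoth, hfac⟩

end

end Pool.Agent.B5.KE
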