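import Pool.Agent.Lib.MP_b5021c_nt.KE.H96.Thr

/-!
# MP_b5021c_nt, all `θ`, K even: normalised rays, closings with a real load
-/

namespace Pool.Agent.B5.KE

open scoped LaurentPolynomial
open Polynomial
open Pool.Agent.B5.Nr.Sch
open Pool.Agent.B5.H40 (uT)

section

variable {P L : Type} [Fintype P] [DecidableEq P] [AddCommGroup L] [Module.Free ℤ L]
  [Module.Finite ℤ L] {phi : L →+ (P → ℤ)} {D : AO ℤ L}

theorem circle_of (z : ℂ) (hz : ‖z‖ = 1) : ∃ w : Circle, (w : ℂ) = z :=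
  ⟨⟨z, mem_sphere_zero_iff_norm.mpr hz⟩, rfl⟩

theorem norm_evR' (z : Circle) (n : ℤ) (q : ℤ[X]) :
    ‖evR z (LaurentPolynomial.T n * toLaurent q : RO ℤ)‖ = ‖aeval (z : ℂ) q‖ := by
  rw [H40.norm_evR, ev_map]

theorem exists_port (hD : DD phi D) {S : L} (hS : Ray D S) : ∃ i0, co phi i0 S = 1 := by
  by_contra hcon
  push Not at hcon
  apply hS.2.1
  apply hD.inj
  rw [map_zero]
  funext i
  have h1 := hcon i
  rcases hD.bin S hS.1 i with h | h
  · exact h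
  · exact absurd h h1

/-- Every ray can be normalised. -/
theorem ray_norm (hE2 : E2S) (hD : DD phi D) (h2 : 2 ≤ Module.finrank ℤ L) {q : ℤ[X]} {a : ℝ}
    (h0 : D.coeff 0 = toLaurent q) (hq : Qn q a) {S : L} (hS : Ray D S) :
    ∃ (f : ℤ[X]) (e : (RO ℤ)ˣ), RN D S q f e a := by
  obtain ⟨hz, -, -, -, -, hr⟩ := hE2 ℤ P L phi D hD h2
  obtain ⟨hle, z0, hz0⟩ := hr S hS
  obtain ⟨m, f', hf', hf0⟩ := H40.exists_normal (D.coeff S) hS.1
  obtain ⟨s, hs, hs1⟩ : ∃ s : ℤˣ, 1 ≤ (s : ℤ) * f'.coeff 0 ∧ ∀ z : ℂ,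
      ‖aeval z (C (s : ℤ) * f')‖ = ‖aeval z f'‖ := by
    rcases lt_or_gt_of_ne hf0 with h | h
    · refine ⟨-1, ?_, fun z => ?_⟩
      · rw [Units.val_neg, Units.val_one]; linarith
      · rw [Units.val_neg, Units.val_one, C_neg, C_1, neg_one_mul, map_neg, norm_neg]
    · refine ⟨1, ?_, fun z => ?_⟩
      · rw [Units.val_one]; linarith
      · rw [Units.val_one, C_1, one_mul]
  have hq' : D.coeff 0 = LaurentPolynomial.T 0 * toLaurent q := by
    rw [h0, LaurentPolynomial.T_zero, one_mul]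
  refine ⟨C (s : ℤ) * f', uT s (-m), ⟨⟨hq.a0, hq.a1, hq.q0, ?_, hq.s⟩, ?_, ?_, h0, ?_⟩⟩
  · intro z hz1
    obtain ⟨w, rfl⟩ := circle_of z hz1
    have h1 := hle w
    rw [hf', hq', norm_evR', norm_evR'] at h1
    rw [hs1]
    exact h1
  · refine ⟨(z0 : ℂ), Circle.norm_coe z0, ?_⟩
    rw [hf', hq', norm_evR', norm_evR'] at hz0
    rw [hs1]
    exact hz0
  · rw [coeff_C_mul]
    exact hs
  · rw [H40.uT_val, hf', map_mul, toLaurent_C]
    have h1 : (LaurentPolynomial.T (-m) : RO ℤ) * LaurentPolynomial.T m = 1 := by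
      rw [← LaurentPolynomial.T_add, neg_add_cancel, LaurentPolynomial.T_zero]
    calc LaurentPolynomial.C (s : ℤ) * LaurentPolynomial.T (-m) *
          (LaurentPolynomial.T m * toLaurent f')
        = LaurentPolynomial.C (s : ℤ) * (LaurentPolynomial.T (-m) * LaurentPolynomial.T m) *
          toLaurent f' := by ring
      _ = _ := by rw [h1, mul_one]

theorem ld_val (e : (RO ℤ)ˣ) (k : ℤ) : ((ld e k : (RO ℤ)ˣ) : RO ℤ) =
    LaurentPolynomial.T k * (e : RO ℤ) := by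
  unfold ld
  rw [Units.val_mul, H40.uT_val, Units.val_one, map_one, one_mul]

theorem ld_S {S : L} {q f : ℤ[X]} {e : (RO ℤ)ˣ} {a : ℝ} (h : RN D S q f e a) (k : ℕ) :
    ((ld e k : (RO ℤ)ˣ) : RO ℤ) * D.coeff S = toLaurent (X ^ k * f) := by
  rw [ld_val, mul_assoc, h.DS, map_mul, toLaurent_X_pow]

/-- The constant coefficient after a load `T^k`. -/
theorem V0_ld {S : L} {q f : ℤ[X]} {e : (RO ℤ)ˣ} {a : ℝ} (h : RN D S q f e a) (k : ℕ) :
    D.coeff 0 + ((ld e k : (RO ℤ)ˣ) : RO ℤ) * D.coeff S = toLaurent (q + X ^ k * f) := by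
  rw [ld_S h, h.D0, map_add]

/-- The constant coefficient after the load A. -/
theorem V0_A {S : L} {q f : ℤ[X]} {e : (RO ℤ)ˣ} {a : ℝ} (h : RN D S q f e a) :
    D.coeff 0 + ((-e : (RO ℤ)ˣ) : RO ℤ) * D.coeff S = toLaurent (q - f) := by
  rw [Units.val_neg, neg_mul, h.DS, h.D0, map_sub, sub_eq_add_neg]

theorem V0_ne {S : L} {q f : ℤ[X]} {e : (RO ℤ)ˣ} {a : ℝ} (h : RN D S q f e a) {k : ℕ}
    (hk : 1 ≤ k) : D.coeff 0 + ((ld e k : (RO ℤ)ˣ) : RO ℤ) * D.coeff S ≠ 0 := by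
  rw [V0_ld h, toLaurent_ne_zero]
  intro h0
  have h1 : (q + X ^ k * f).coeff 0 = 0 := by rw [h0, coeff_zero]
  rw [coeff_add, h.loc.q0, mul_coeff_zero, coeff_X_pow, if_neg (by omega), zero_mul,
    add_zero] at h1
  exact one_ne_zero h1

theorem V0_ne_A {S : L} {q f : ℤ[X]} {e : (RO ℤ)ˣ} {a : ℝ} (h : RN D S q f e a) :
    D.coeff 0 + ((-e : (RO ℤ)ˣ) : RO ℤ) * D.coeff S ≠ 0 := by
  rw [V0_A h, toLaurent_ne_zero]
  intro h0
  obtain ⟨z, -, hz⟩ := h.ne
  apply hz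
  rw [sub_eq_zero.mp h0]

theorem classP_of {Q : ℤ[X]} {b : ℝ} (hb0 : 0 < b) (hb1 : b < 1) (h0 : Q.coeff 0 = 1)
    (hr : (Q.map (Coef.emb : ℤ →+* ℂ)).roots.filter (fun x => ‖x‖ < 1) = {(b : ℂ)}) :
    ClassP b⁻¹ (toLaurent Q : RO ℤ) := by
  refine ⟨(one_lt_inv₀ hb0).mpr hb1, 0, Q, ?_, ?_, (b : ℂ), ?_, hr⟩
  · rw [LaurentPolynomial.T_zero, one_mul]
  · rw [h0, map_one, norm_one]
  · rw [inv_inv, Complex.norm_real, Real.norm_eq_abs, abs_of_pos hb0]

theorem classP_q {S : L} {q f : ℤ[X]} {e : (RO ℤ)ˣ} {a : ℝ} (h : RN D S q f e a) :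
    ClassP a⁻¹ (D.coeff 0) := by
  rw [h.D0]
  exact classP_of h.loc.a0 h.loc.a1 h.loc.q0 (roots_loc h.loc)

/-- All factors are big and the closed coefficient is of class `P`: one factor. -/
theorem one_fac (hE1 : E1S) (hMV : MVS) (hMm : MmulS) {n : ℕ} {c : RO ℤ} {x : Fin n → RO ℤ}
    {th : ℝ} (hc : c ≠ 0) (hx : ∀ i, x i ≠ 0) (hP : ClassP th (c * ∏ i, x i))
    (hb : ∀ i, 1 < M (x i)) (l : Fin n) : (∀ i, i = l) ∧ ClassP th (x l) ∧ ClassV 1 c := by
  classical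
  obtain ⟨mv1, mv2⟩ := hMV ℤ
  obtain ⟨m1, m2, -⟩ := hMm ℤ
  obtain ⟨-, e2⟩ := hE1 ℤ
  have h1 : c * ∏ i, x i = x l * (c * ∏ i ∈ Finset.univ.erase l, x i) := by
    rw [← Finset.mul_prod_erase Finset.univ x (Finset.mem_univ l)]
    ring
  rw [h1] at hP
  have hrest : (∏ i ∈ Finset.univ.erase l, x i) ≠ 0 :=
    Finset.prod_ne_zero_iff.mpr fun i _ => hx i
  rcases e2 _ _ _ hP with ⟨h2, h3⟩ | ⟨h2, -⟩
  · have h4 := (mv1 _ _ h3).2
    rw [m1 _ _ hc hrest] at h4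
    have h5 : ∀ i, i = l := by
      intro i
      by_contra hi
      have h6 := H56.one_lt_prod hMm (Finset.univ.erase l) x hx i
        (Finset.mem_erase.mpr ⟨hi, Finset.mem_univ i⟩) (hb i)
      have h7 := m2 c
      nlinarith
    refine ⟨h5, h2, ?_⟩
    have h6 : Finset.univ.erase l = (∅ : Finset (Fin n)) := by
      rw [Finset.eq_empty_iff_forall_notMem]
      intro i hi
      exact (Finset.mem_erase.mp hi).1 (h5 i)
    rw [h6, Finset.prod_empty, mul_one] at h3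
    exact h3
  · have h4 := (mv1 _ _ h2).2
    have := hb l
    linarith

/-- Without small factors (and without pure ones) all factors are big. -/
theorem all_big (hClp : ClpS) {S : L} {i0 : P} {eta : (RO ℤ)ˣ} {h : co phi i0 S = 1} {c : RO ℤ}
    {n : ℕ} {G : Fin n → AO ℤ (Ker (co phi i0))} (fp : FP phi D)
    (fd : FD phi D S i0 eta h c n G) (hs : snp phi S i0 G = ∅) (i : Fin n) :
    1 < M ((G i).coeff 0) := by
  classical
  by_contra hcon
  have h1 : i ∈ snp phi S i0 G := by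
    unfold snp
    exact Finset.mem_filter.mpr ⟨Finset.mem_univ i, hcon,
      ((hClp ℤ P L phi D S i0 eta h c n G fp fd).2 i).1⟩
  rw [hs] at h1
  exact absurd h1 (Finset.notMem_empty i)

/-- There is a factor. -/
theorem fac_ex {S : L} {i0 : P} {eta : (RO ℤ)ˣ} {h : co phi i0 S = 1} {c : RO ℤ}
    {n : ℕ} {G : Fin n → AO ℤ (Ker (co phi i0))} (fd : FD phi D S i0 eta h c n G)
    (hd : 1 ≤ rk (supp (cl (co phi i0) S h eta D))) : Nonempty (Fin n) := by
  by_contra hcon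
  rw [not_nonempty_iff] at hcon
  have h1 : cl (co phi i0) S h eta D = cst c := by
    rw [fd.eq, Finset.univ_eq_empty, Finset.prod_empty, mul_one]
  rw [h1] at hd
  have h2 : rk (supp (cst c : AO ℤ (Ker (co phi i0)))) = 0 := by
    unfold rk
    have h3 : Submodule.span ℤ (supp (cst c : AO ℤ (Ker (co phi i0)))) = ⊥ := by
      rw [Submodule.span_eq_bot]
      intro x hx
      exact H56.supp_cst_sub c hx
    rw [h3, finrank_bot]
  omega

/-- GOOD: no drop, no small factor: one factor, an element of `DD` whose rank is one less. -/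
theorem good_of (hE1 : E1S) (hMV : MVS) (hMm : MmulS) (hClp : ClpS) {S : L} {i0 : P}
    {eta : (RO ℤ)ˣ} {h : co phi i0 S = 1} {c : RO ℤ} {n : ℕ}
    {G : Fin n → AO ℤ (Ker (co phi i0))} {th : ℝ} (fp : FP phi D)
    (fd : FD phi D S i0 eta h c n G) (hs : snp phi S i0 G = ∅)
    (hdr : Module.finrank ℤ L = rk (supp (cl (co phi i0) S h eta D)) + 1)
    (h2 : 2 ≤ Module.finrank ℤ L)
    (hP : ClassP th (D.coeff 0 + (eta : RO ℤ) * D.coeff S)) :
    ∃ (l : Fin n) (K : Submodule ℤ (Ker (co phi i0))), ClassP th ((G l).coeff 0) ∧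
      Module.finrank ℤ K + 1 = Module.finrank ℤ L ∧
      DD ((phO phi S i0).comp (incl K)) (res K (G l)) := by
  obtain ⟨l⟩ := fac_ex fd (by omega)
  have hbig := all_big hClp fp fd hs
  have hx : ∀ i, (G i).coeff 0 ≠ 0 := fun i => (fd.st i).1
  rw [fd.v00] at hP
  obtain ⟨h3, h4, -⟩ := one_fac hE1 hMV hMm fd.c0 hx hP hbig l
  obtain ⟨-, K, -, -, h5, h6⟩ := (hClp ℤ P L phi D S i0 eta h c n G fp fd).2 l
  refine ⟨l, K, h4, ?_, h6⟩
  have h7 : ∏ i, G i = G l := by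
    rw [Finset.prod_eq_single l]
    · intro i _ hi
      exact absurd (h3 i) hi
    · intro hi
      exact absurd (Finset.mem_univ l) hi
  rw [h5, hdr, fd.eq, h7, H56.supp_cst_mul fd.c0]

/-- A good load `T^k`: the sign at `1/j`. -/
theorem neg_of (hPc : PCZS) (hE1 : E1S) (hMV : MVS) (hMm : MmulS) (hClp : ClpS) {S : L}
    {i0 : P} {q f : ℤ[X]} {e : (RO ℤ)ˣ} {a : ℝ} {k : ℕ} {h : co phi i0 S = 1} {c : RO ℤ} {n : ℕ}
    {G : Fin n → AO ℤ (Ker (co phi i0))} {j : ℕ} (hR : RN D S q f e a) (hk : 1 ≤ k)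
    (fp : FP phi D) (fd : FD phi D S i0 (ld e k) h c n G) (hs : snp phi S i0 G = ∅)
    (hdr : Module.finrank ℤ L = rk (supp (cl (co phi i0) S h (ld e k) D)) + 1)
    (hj : 2 ≤ j) (hfr : Module.finrank ℤ L = 2 * j) (hIH : Bnk (2 * j - 1)) :
    a ≤ 1 / j ∧ a < 1 / j ∧ (aeval (1 / (j : ℝ)) (q + X ^ k * f) : ℝ) ≤ 0 := by
  have hj' : (2 : ℝ) ≤ j := by exact_mod_cast hj
  have hx : ∀ i, (G i).coeff 0 ≠ 0 := fun i => (fd.st i).1
  have hc0 : (q + X ^ k * f).coeff 0 = 1 := by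
    rw [coeff_add, hR.loc.q0, mul_coeff_zero, coeff_X_pow, if_neg (by omega), zero_mul, add_zero]
  rcases lob hPc hR.loc hR.u hR.ne hk with h1 | ⟨b, hab, hb1, hb⟩
  · exfalso
    -- class `V(1)`: measure one
    have h2 : ClassV 1 (D.coeff 0 + ((ld e k : (RO ℤ)ˣ) : RO ℤ) * D.coeff S) := by
      refine ⟨le_refl 1, 0, q + X ^ k * f, ?_, ?_, ?_⟩
      · rw [V0_ld hR, LaurentPolynomial.T_zero, one_mul]
      · rw [hc0, map_one, norm_one]
      · intro z hz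
        rw [ev_map]
        exact h1 z hz
    have h3 := ((hMV ℤ).1 _ _ h2).2
    obtain ⟨l⟩ := fac_ex fd (by omega)
    have hbig := all_big hClp fp fd hs
    have h4 := H56.one_lt_prod hMm Finset.univ _ hx l (Finset.mem_univ l) (hbig l)
    rw [fd.v00, (hMm ℤ).1 _ _ fd.c0 (Finset.prod_ne_zero_iff.mpr fun i _ => hx i)] at h3
    have h5 := (hMm ℤ).2.1 c
    nlinarith
  · have hb0 : 0 < b := lt_trans hR.loc.a0 hab
    have h2 : ClassP b⁻¹ (D.coeff 0 + ((ld e k : (RO ℤ)ˣ) : RO ℤ) * D.coeff S) := by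
      rw [V0_ld hR]
      exact classP_of hb0 hb1 hc0 hb
    obtain ⟨l, K, h3, h4, h5⟩ := good_of hE1 hMV hMm hClp fp fd hs hdr (by omega) h2
    have h6 := (hIH b⁻¹ P K ((phO phi S i0).comp (incl K)) (res K (G l)) h5 h3
      (by omega)).2 (by
        rw [Nat.odd_iff]
        omega)
    have h7 : (((2 * j - 1 : ℕ) : ℝ)) = 2 * j - 1 := by
      rw [Nat.cast_sub (by omega)]
      push_cast
      ring
    rw [h7] at h6
    have h8 : (j : ℝ) ≤ b⁻¹ := by linarith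
    have h9 : b ≤ 1 / j := by
      rw [le_div_iff₀ (by linarith)]
      have := mul_le_mul_of_nonneg_left h8 hb0.le
      rw [mul_inv_cancel₀ hb0.ne'] at this
      exact this
    refine ⟨by linarith, by linarith, sgn hk hR.loc.q0 hb0 hb h9 ?_⟩
    rw [div_lt_one (by linarith)]
    linarith

/-- The window excludes the exact bound. -/
theorem num_exb {a : ℝ} {j : ℕ} (hwin : a⁻¹ - a < j) (h : ExB (2 * j) a⁻¹) : False := by
  have h1 := h.1
  rw [inv_inv] at h1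
  push_cast at h1
  linarith

theorem num_lin {a : ℝ} {j : ℕ} (ha0 : 0 < a) (hj : 2 ≤ j) (hwin : a⁻¹ - a < j)
    (h : ((2 * j : ℕ) : ℝ) ≤ 2 * a⁻¹ - 1) : False := by
  have hj' : (2 : ℝ) ≤ j := by exact_mod_cast hj
  push_cast at h
  have h1 : (j : ℝ) + 1 / 2 ≤ a⁻¹ := by linarith
  have h2 : a * a⁻¹ = 1 := mul_inv_cancel₀ ha0.ne'
  have h3 : a * (j + 1 / 2) ≤ 1 := by
    have := mul_le_mul_of_nonneg_left h1 ha0.le
    linarith
  nlinarith

/-- An element of lower rank and of class `P(θ')`, `θ' + 1 ≤ θ`. -/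
theorem num_low {a : ℝ} {j : ℕ} (ha0 : 0 < a) (hj : 2 ≤ j) (hwin : a⁻¹ - a < j)
    (hIH : ∀ K < 2 * j, Bnk K) (h : LowG (2 * j) a⁻¹) : False := by
  have hj' : (2 : ℝ) ≤ j := by exact_mod_cast hj
  obtain ⟨th, hth, P', L', _, _, _, _, _, phi', D', hD', hP', h1, h2⟩ := h
  have h3 := hIH (Module.finrank ℤ L') h2 th P' L' phi' D' hD' hP' rfl
  have hth1 : 1 < th := hP'.1
  have h4 : a * a⁻¹ = 1 := mul_inv_cancel₀ ha0.ne'
  have h5 : a * (th + 1) ≤ 1 := by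
    have := mul_le_mul_of_nonneg_left hth ha0.le
    linarith
  rcases Nat.even_or_odd (Module.finrank ℤ L') with he | ho
  · have h6 := h3.1 he
    have h7 : Module.finrank ℤ L' = 2 * j - 2 := by
      obtain ⟨r, hr⟩ := he
      omega
    have h8 : ((Module.finrank ℤ L' : ℕ) : ℝ) = 2 * j - 2 := by
      rw [h7, Nat.cast_sub (by omega)]
      push_cast
      ring
    rw [h8] at h6
    have h9 : (j : ℝ) - 1 ≤ th - 1 / th := by linarith
    have h10 : a ≤ 1 / th := by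
      rw [le_div_iff₀ (by linarith)]
      nlinarith
    linarith
  · have h6 := h3.2 ho
    have h7 : Module.finrank ℤ L' = 2 * j - 1 := by
      obtain ⟨r, hr⟩ := ho
      omega
    have h8 : ((Module.finrank ℤ L' : ℕ) : ℝ) = 2 * j - 1 := by
      rw [h7, Nat.cast_sub (by omega)]
      push_cast
      ring
    rw [h8] at h6
    have h9 : (j : ℝ) ≤ th := by linarith
    have h10 : a ≤ 1 := by nlinarith
    linarith

/-- (SF) at a load `T^k`: no small factor, and there is a big factor. -/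
theorem sf_kill (hSf : SfzS) {S : L} {i0 : P} {q f : ℤ[X]} {e : (RO ℤ)ˣ} {a : ℝ} {k : ℕ}
    {h : co phi i0 S = 1} {c : RO ℤ} {n : ℕ} {G : Fin n → AO ℤ (Ker (co phi i0))} {j : ℕ}
    (hR : RN D S q f e a) (hk : 1 ≤ k) (hu : k = 1 → f.coeff 0 = 1) (fp : FP phi D)
    (fd : FD phi D S i0 (ld e k) h c n G) (hj : 2 ≤ j) (hfr : Module.finrank ℤ L = 2 * j)
    (ha : a ≤ 1 / 2) (hwin : a⁻¹ - a < j) (hIH : ∀ K < 2 * j, Bnk K)
    (hdr : Module.finrank ℤ L = rk (supp (cl (co phi i0) S h (ld e k) D)) + 1 ∨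
      ∃ (S1 : L) (e1 : (RO ℤ)ˣ), Mut D S S1 (ld e k) e1) :
    snp phi S i0 G = ∅ ∧ big G ≠ ∅ := by
  have ha0 := hR.loc.a0
  have key : ¬ ((snp phi S i0 G).Nonempty ∨ big G = ∅) := by
    intro hcon
    have h1 := hSf P L phi D S i0 (ld e k) h c n G a⁻¹ 0 q (X ^ (k - 1) * f) fp fd (by omega)
      (by
        have : (2 : ℝ)⁻¹⁻¹ ≤ a⁻¹ := inv_anti₀ ha0 (by linarith)
        rwa [inv_inv] at this)
      (classP_q hR) (by rw [LaurentPolynomial.T_zero, one_mul, hR.D0])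
      (by rw [hR.loc.q0, abs_one])
      (by
        rw [LaurentPolynomial.T_zero, one_mul, ld_S hR, ← mul_assoc, ← pow_succ',
          Nat.sub_add_cancel hk])
      (by
        rcases eq_or_lt_of_le hk with h1 | h1
        · rw [← h1, mul_coeff_zero, hu h1.symm]
          simp
        · rw [mul_coeff_zero, coeff_X_pow, if_neg (by omega), zero_mul]
          simp)
      hcon hdr
    rw [hfr] at h1
    rcases h1 with h1 | h1 | h1
    · exact num_exb hwin h1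
    · exact num_lin ha0 hj hwin h1
    · exact num_low ha0 hj hwin hIH h1
  constructor
  · by_contra h1
    exact key (Or.inl (Finset.nonempty_iff_ne_empty.mpr h1))
  · intro h1
    exact key (Or.inr h1)

end

end Pool.Agent.B5.KE
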