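import Pool.Agent.Lib.MP_b5021c_nt.KE.H96.Fa1

/-!
# MP_b5021c_nt, all `θ`: normal forms after the closing A; the final contradictions
-/

namespace Pool.Agent.B5.KE

open scoped LaurentPolynomial
open Polynomial
open Pool.Agent.B5.Nr.Sch

/-- Splitting a polynomial with constant term one, up to units. -/
theorem split_one (hU : UnitRS) {p : ℤ[X]} (hp : p.coeff 0 = 1) {w c g : RO ℤ} (hw : IsUnit w)
    (h : w * (c * g) = toLaurent p) : ∃ c' g' : ℤ[X], c'.coeff 0 = 1 ∧ g'.coeff 0 = 1 ∧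
      p = c' * g' ∧ (∃ u : (RO ℤ)ˣ, c = (u : RO ℤ) * toLaurent c') ∧
      ∃ v : (RO ℤ)ˣ, (v : RO ℤ) * g = toLaurent g' := by
  have hp0 : (toLaurent p : RO ℤ) ≠ 0 := by
    rw [toLaurent_ne_zero]
    intro h0
    rw [h0, coeff_zero] at hp
    exact zero_ne_one hp
  have hc : c ≠ 0 := by
    intro h0
    rw [h0, zero_mul, mul_zero] at h
    exact hp0 h.symm
  have hg : g ≠ 0 := by
    intro h0
    rw [h0, mul_zero, mul_zero] at h
    exact hp0 h.symm
  obtain ⟨m, c1, hc1, hc10⟩ := H40.exists_normal c hc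
  obtain ⟨m', g1, hg1, hg10⟩ := H40.exists_normal g hg
  obtain ⟨n, u, hu, hwu⟩ := (hU ℤ w).mp hw
  have hu0 : u ≠ 0 := hu.ne_zero
  have h1 : (LaurentPolynomial.T 0 : RO ℤ) * toLaurent p =
      LaurentPolynomial.T (n + m + m') * toLaurent (C u * c1 * g1) := by
    rw [LaurentPolynomial.T_zero, one_mul, ← h, hc1, hg1, hwu, map_mul, map_mul, toLaurent_C,
      LaurentPolynomial.T_add, LaurentPolynomial.T_add]
    ring
  have h00 : (C u * c1 * g1).coeff 0 = u * c1.coeff 0 * g1.coeff 0 := by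
    rw [mul_coeff_zero, mul_coeff_zero, coeff_C_zero]
  obtain ⟨-, h2⟩ := H56.nf_unique 0 _ p _ (by rw [hp]; exact one_ne_zero)
    (by rw [h00]; exact mul_ne_zero (mul_ne_zero hu0 hc10) hg10) h1
  have h3 : u * c1.coeff 0 * g1.coeff 0 = 1 := by rw [← h00, ← h2, hp]
  have hc2 : IsUnit (c1.coeff 0) := by
    apply IsUnit.of_mul_eq_one (u * g1.coeff 0)
    linarith
  have hg2 : IsUnit (g1.coeff 0) := by
    apply IsUnit.of_mul_eq_one (u * c1.coeff 0)
    linarith
  have sq1 : ∀ x : ℤ, IsUnit x → x * x = 1 := by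
    intro x hx
    rcases Int.isUnit_iff.mp hx with h | h <;> rw [h] <;> norm_num
  have hcc := sq1 _ hc2
  have hgg := sq1 _ hg2
  have hC : (C (c1.coeff 0) : ℤ[X]) * C (c1.coeff 0) = 1 := by rw [← C_mul, hcc, C_1]
  have hG : (C (g1.coeff 0) : ℤ[X]) * C (g1.coeff 0) = 1 := by rw [← C_mul, hgg, C_1]
  refine ⟨C (c1.coeff 0) * c1, C (g1.coeff 0) * g1, ?_, ?_, ?_, ?_, ?_⟩
  · rw [mul_coeff_zero, coeff_C_zero, hcc]
  · rw [mul_coeff_zero, coeff_C_zero, hgg]
  · have h4 : C (c1.coeff 0) * c1 * (C (g1.coeff 0) * g1) =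
        C (u * c1.coeff 0 * g1.coeff 0) * (C (c1.coeff 0) * c1 * (C (g1.coeff 0) * g1)) := by
      rw [h3, C_1, one_mul]
    rw [h4, h2]
    conv_rhs => rw [C_mul, C_mul]
    calc C u * c1 * g1 = C u * 1 * 1 * c1 * g1 := by ring
      _ = C u * (C (c1.coeff 0) * C (c1.coeff 0)) * (C (g1.coeff 0) * C (g1.coeff 0)) * c1 * g1 := by
          rw [hC, hG]
      _ = _ := by ring
  · obtain ⟨s, hs⟩ := hc2
    refine ⟨H40.uT s m, ?_⟩
    rw [H40.uT_val, hs, map_mul, toLaurent_C, hc1]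
    have h5 : (LaurentPolynomial.C (c1.coeff 0) : RO ℤ) * LaurentPolynomial.C (c1.coeff 0) = 1 := by
      rw [← map_mul, hcc, map_one]
    calc LaurentPolynomial.T m * toLaurent c1 = 1 * (LaurentPolynomial.T m * toLaurent c1) := by
          ring
      _ = _ := by rw [← h5]; ring
  · obtain ⟨s, hs⟩ := hg2
    refine ⟨H40.uT s (-m'), ?_⟩
    rw [H40.uT_val, hs, map_mul, toLaurent_C, hg1]
    have h5 : (LaurentPolynomial.T (-m') : RO ℤ) * LaurentPolynomial.T m' = 1 := by
      rw [← LaurentPolynomial.T_add, neg_add_cancel, LaurentPolynomial.T_zero]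
    calc LaurentPolynomial.C (g1.coeff 0) * LaurentPolynomial.T (-m') *
          (LaurentPolynomial.T m' * toLaurent g1) = LaurentPolynomial.C (g1.coeff 0) *
          (LaurentPolynomial.T (-m') * LaurentPolynomial.T m') * toLaurent g1 := by ring
      _ = _ := by rw [h5, mul_one]

/-- `c' ⋅ unit ⋅ h = X E`, `h(0) = E(0) ≠ 0`, `c'(0) = 1`: then `E = c' h`. -/
theorem eq_E (hU : UnitRS) {c' h E : ℤ[X]} {w : RO ℤ} (hw : IsUnit w) (hc : c'.coeff 0 = 1)
    (hE : E.coeff 0 ≠ 0) (hh : h.coeff 0 = E.coeff 0)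
    (he : w * toLaurent (c' * h) = toLaurent (X * E)) : E = c' * h := by
  obtain ⟨n, u, hu, hwu⟩ := (hU ℤ w).mp hw
  have hu0 : u ≠ 0 := hu.ne_zero
  have h1 : (LaurentPolynomial.T n : RO ℤ) * toLaurent (C u * (c' * h)) =
      LaurentPolynomial.T 1 * toLaurent E := by
    rw [map_mul, toLaurent_C, ← mul_assoc, mul_comm (LaurentPolynomial.T n : RO ℤ), ← hwu, he,
      map_mul, toLaurent_X]
  have h00 : (C u * (c' * h)).coeff 0 = u * E.coeff 0 := by
    rw [mul_coeff_zero, coeff_C_zero, mul_coeff_zero, hc, one_mul, hh]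
  obtain ⟨-, h2⟩ := H56.nf_unique n 1 _ E (by rw [h00]; exact mul_ne_zero hu0 hE) hE h1
  have h3 : u * E.coeff 0 = 1 * E.coeff 0 := by rw [← h00, h2, one_mul]
  have h4 : u = 1 := mul_right_cancel₀ hE h3
  rw [← h2, h4, C_1, one_mul]

/-- The final inequalities (levels). -/
theorem e5c {q f : ℤ[X]} {a : ℝ} {j k : ℕ} {r t : ℤ} (ha0 : 0 < a) (haj : a < 1 / j)
    (hj : 2 ≤ j) (hk : 1 ≤ k) (ht1 : t + 1 ≤ j) (ht2 : -t + 1 ≤ j)
    (hqa : (aeval a q : ℝ) = 0) (hg : (1 + X) * f = 1 + C r * X ^ k)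
    (hq : q = f - X * (C (j : ℤ) + C t * X ^ k)) : (j : ℝ) ≤ a⁻¹ - a := by
  have hj' : (2 : ℝ) ≤ j := by exact_mod_cast hj
  have haj' : a * j < 1 := by
    rw [lt_div_iff₀ (by linarith)] at haj
    exact haj
  have ha2 : a < 1 / 2 := by nlinarith
  obtain ⟨F, hF⟩ : ∃ F : ℝ, F = aeval a f := ⟨_, rfl⟩
  have h1 : (1 + a) * F = 1 + r * a ^ k := by
    have := congrArg (fun p : ℤ[X] => (aeval a p : ℝ)) hg
    simp only [map_mul, map_add, map_one, aeval_X, map_pow, ← hF, aC] at this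
    exact this
  have h2 : F = a * (j + t * a ^ k) := by
    have := congrArg (fun p : ℤ[X] => (aeval a p : ℝ)) hq
    rw [map_sub, map_mul, map_add, aeval_X, ← hF, hqa, map_mul (aeval a) (C _), map_pow, aeval_X,
      aC, aC] at this
    push_cast at this
    linarith
  have h0 : (0 : ℤ) = 1 + r * (-1) ^ k := by
    have := congrArg (fun p : ℤ[X] => p.eval (-1)) hg
    simp only [eval_mul, eval_add, eval_one, eval_X, eval_C, eval_pow] at this
    linarith
  obtain ⟨A, hA⟩ : ∃ A : ℝ, A = a ^ k := ⟨_, rfl⟩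
  rw [← hA] at h1 h2
  have hA0 : 0 < A := by rw [hA]; exact pow_pos ha0 k
  have hA1 : A ≤ a := by
    rw [hA]
    calc a ^ k ≤ a ^ 1 := pow_le_pow_of_le_one ha0.le (by linarith) hk
      _ = a := pow_one a
  have ht1' : (t : ℝ) + 1 ≤ j := by exact_mod_cast ht1
  have ht2' : -(t : ℝ) + 1 ≤ j := by exact_mod_cast ht2
  suffices hs : a * (j + a) ≤ 1 by
    have h10 : a⁻¹ - a = (1 - a ^ 2) / a := by field_simp
    rw [h10, le_div_iff₀ ha0]
    linarith
  rcases Nat.even_or_odd k with he | ho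
  · -- `k` even
    rw [he.neg_one_pow, mul_one] at h0
    have hr : (r : ℝ) = -1 := by
      have : r = -1 := by linarith
      rw [this]; push_cast; ring
    rw [hr, h2] at h1
    have h3 : a * (1 + a) * (j * (1 - A)) ≤ 1 - A := by
      have h4 : a * (1 + a) * (j * (1 - A)) ≤ a * (1 + a) * (j + t * A) := by
        apply mul_le_mul_of_nonneg_left _ (by positivity)
        nlinarith
      have h5 : a * (1 + a) * (j + t * A) = 1 - A := by linarith
      linarith
    have h4 : 0 < 1 - A := by linarith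
    have h5 : a * (1 + a) * j ≤ 1 := by
      by_contra hcon
      push Not at hcon
      have := mul_lt_mul_of_pos_right hcon h4
      linarith
    nlinarith [mul_pos ha0 ha0]
  · rw [ho.neg_one_pow] at h0
    have hr : (r : ℝ) = 1 := by
      have : r = 1 := by linarith
      rw [this]; push_cast; ring
    rw [hr, h2] at h1
    obtain ⟨i, hi⟩ := ho
    rcases Nat.eq_zero_or_pos i with hi0 | hi0
    · -- `k = 1`
      have hAa : A = a := by rw [hA, hi, hi0]; ring
      rw [hAa] at h1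
      have h3 : (1 + a) * (a * (j + t * a) - 1) = 0 := by linarith
      have h4 : a * (j + t * a) - 1 = 0 := (mul_eq_zero.mp h3).resolve_left (by linarith)
      have h5 : 1 ≤ t := by
        by_contra hcon
        push Not at hcon
        have h6 : (t : ℝ) ≤ 0 := by exact_mod_cast (by omega : t ≤ 0)
        nlinarith [mul_pos ha0 ha0]
      have h6 : (1 : ℝ) ≤ t := by exact_mod_cast h5
      nlinarith [mul_pos ha0 ha0]
    · -- `k ≥ 3`
      have hA3 : A ≤ a ^ 3 := by
        rw [hA]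
        exact pow_le_pow_of_le_one ha0.le (by linarith) (by omega)
      have h3 : a * ((1 + a) * (j - (j - 1) * A)) ≤ 1 + A := by
        have h4 : a * ((1 + a) * (j - (j - 1) * A)) ≤ a * ((1 + a) * (j + t * A)) := by
          apply mul_le_mul_of_nonneg_left _ ha0.le
          apply mul_le_mul_of_nonneg_left _ (by linarith)
          nlinarith
        linarith
      have h4 : (j + a) * (1 + A) ≤ (1 + a) * (j - (j - 1) * A) := by
        have h5 : 0 ≤ (j - 1) * a - (2 * j - 1) * a ^ 3 - j * a ^ 4 := by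
          have h6 : a ^ 2 ≤ 1 / 4 := by nlinarith
          have h7 : a ^ 3 ≤ 1 / 8 := by nlinarith [mul_nonneg ha0.le ha0.le]
          have h8 : 0 ≤ (j - 1) - (2 * j - 1) * a ^ 2 - j * a ^ 3 := by nlinarith
          have h9 := mul_nonneg ha0.le h8
          linarith
        have h6 : 0 ≤ (2 * j - 1 + j * a) * (a ^ 3 - A) :=
          mul_nonneg (by nlinarith) (by linarith)
        nlinarith
      have h5 : a * (j + a) * (1 + A) ≤ 1 * (1 + A) := by
        have := mul_le_mul_of_nonneg_left h4 ha0.le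
        linarith
      exact le_of_mul_le_mul_right h5 (by linarith)

/-- The second coefficient of `N + t z^k`, zero-free in the closed disc. -/
theorem t_lt {j k : ℕ} {t : ℤ} (hk : 1 ≤ k)
    (h : ∀ z : ℂ, ‖z‖ ≤ 1 → (j : ℂ) + t * z ^ k ≠ 0) : |t| < j := by
  by_contra hcon
  push Not at hcon
  have hj0 : (j : ℂ) ≠ 0 := by
    have := h 0 (by simp)
    rwa [zero_pow (by omega), mul_zero, add_zero] at this
  have hj0' : j ≠ 0 := by exact_mod_cast hj0
  have ht : t ≠ 0 := by
    intro h0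
    rw [h0, abs_zero] at hcon
    omega
  have htc : (t : ℂ) ≠ 0 := by exact_mod_cast ht
  obtain ⟨z, hz⟩ := IsAlgClosed.exists_pow_nat_eq (-(j : ℂ) / t) (show 0 < k by omega)
  refine h z ?_ (by rw [hz]; field_simp; ring)
  have h1 : ‖z‖ ^ k ≤ 1 := by
    rw [← norm_pow, hz, norm_div, norm_neg, Complex.norm_natCast, Complex.norm_intCast,
      div_le_one (abs_pos.mpr (by exact_mod_cast ht))]
    exact_mod_cast hcon
  exact (pow_le_one_iff_of_nonneg (norm_nonneg z) (by omega)).mp h1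

theorem coeff_tL (p : ℤ[X]) (k : ℕ) : (toLaurent p : RO ℤ).coeff (k : ℤ) = p.coeff k := by
  rw [Polynomial.toLaurent_apply]
  exact Finsupp.mapDomain_apply Nat.cast_injective _ k

/-- Coefficients of a z-free element. -/
theorem zfree_mono {L : Type} [AddCommGroup L] {G : AO ℤ L} (h : ZFree G) (a : L)
    (ha : G.coeff a ≠ 0) : ∃ (b : ℤ) (k : ℤ), b ≠ 0 ∧
      G.coeff a = LaurentPolynomial.C b * LaurentPolynomial.T k := by
  obtain ⟨q, l, n, hq, h1⟩ := h
  obtain ⟨m, g, hg, hg0⟩ := H40.exists_normal (G.coeff a) ha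
  have hco : ∀ i : ℕ, (G.coeff a).coeff (m + i) = g.coeff i := by
    intro i
    rw [hg, mul_comm, LaurentPolynomial.T]
    have h2 := AddMonoidAlgebra.coeff_mul_single_apply (toLaurent g : RO ℤ) (1 : ℤ) m (m + i)
    rw [mul_one] at h2
    rw [h2]
    have h3 : m + (i : ℤ) + -m = i := by ring
    rw [h3]
    exact coeff_tL g i
  have hgc : ∀ i : ℕ, i ≠ 0 → g.coeff i = 0 := by
    intro i hi
    by_contra h2
    have h3 := h1 a (m + i) (by rw [hco]; exact h2)
    have h4 := h1 a m (by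
      have := hco 0
      rw [Nat.cast_zero, add_zero] at this
      rw [this]
      exact hg0)
    have h5 : (q : ℤ) * (m + i) = q * m := by rw [h3, h4]
    have h6 : (m + (i : ℤ)) = m := mul_left_cancel₀ (by exact_mod_cast hq.ne') h5
    omega
  refine ⟨g.coeff 0, m, hg0, ?_⟩
  have h7 : g = C (g.coeff 0) := by
    ext i
    rw [coeff_C]
    by_cases hi : i = 0
    · rw [if_pos hi, hi]
    · rw [if_neg hi]
      exact hgc i hi
  rw [hg]
  conv_lhs => rw [h7]
  rw [toLaurent_C, mul_comm]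

end Pool.Agent.B5.KE
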