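import Pool.Agent.Lib.MP_b5021c_nt.IfaceL1
import Pool.Agent.Lib.MP_b5021c_nt.W.H80.Win
import Pool.Agent.Lib.MP_b5021c_nt.E2.H80.Psz2

/-!
# MP_b5021c_nt, all `θ`, K even: one-variable facts about the loads
-/

namespace Pool.Agent.B5.KE

open Polynomial
open Pool.Agent.B5.Nr.Sch

theorem emb_eq : (Coef.emb : ℤ →+* ℂ) = Int.castRingHom ℂ := rfl

theorem ev_map (P : ℤ[X]) (z : ℂ) : (P.map (Coef.emb : ℤ →+* ℂ)).eval z = aeval z P := by
  rw [emb_eq, eval_map, aeval_def]
  rfl

theorem ae_re (P : ℤ[X]) (x : ℝ) :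
    aeval (x : ℂ) P = (((P.map (Int.castRingHom ℝ)).eval x : ℝ) : ℂ) := by
  rw [← aeval_map_real, aeval_re]

/-- The only root of `q` in the open disc. -/
theorem roots_loc {q f : ℤ[X]} {a : ℝ} (h : Loc q f a) :
    (q.map (Coef.emb : ℤ →+* ℂ)).roots.filter (fun x => ‖x‖ < 1) = {(a : ℂ)} := by
  obtain ⟨s, hs, hnz⟩ := h.s
  have h1 : q.map (Coef.emb : ℤ →+* ℂ) = (X - C (a : ℂ)) * s.map Complex.ofRealHom := by
    have h2 : (q.map (Int.castRingHom ℝ)).map Complex.ofRealHom =
        ((X - C a) * s).map Complex.ofRealHom := by rw [hs]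
    rw [Polynomial.map_map, Polynomial.map_mul, Polynomial.map_sub, map_X, map_C] at h2
    have h3 : (Complex.ofRealHom).comp (Int.castRingHom ℝ) = Int.castRingHom ℂ :=
      RingHom.ext_int _ _
    rw [h3] at h2
    exact h2
  have hs0 : s.map Complex.ofRealHom ≠ 0 := by
    intro h0
    have h2 := hnz 0 (by simp)
    apply h2
    have h3 : aeval (0 : ℂ) s = (s.map Complex.ofRealHom).eval 0 := by
      rw [eval_map, aeval_def]; rfl
    rw [h3, h0, eval_zero]
  have hX : (X - C (a : ℂ)) ≠ 0 := X_sub_C_ne_zero _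
  rw [h1, roots_mul (mul_ne_zero hX hs0), Multiset.filter_add, roots_X_sub_C]
  have h4 : (s.map Complex.ofRealHom).roots.filter (fun x => ‖x‖ < 1) = 0 := by
    rw [Multiset.filter_eq_nil]
    intro z hz hz1
    have h5 : (s.map Complex.ofRealHom).eval z = 0 := (mem_roots hs0).mp hz
    apply hnz z hz1.le
    have h6 : aeval z s = (s.map Complex.ofRealHom).eval z := by
      rw [eval_map, aeval_def]; rfl
    rw [h6, h5]
  rw [h4, add_zero, Multiset.filter_singleton, if_pos]
  rw [Complex.norm_real, Real.norm_eq_abs, abs_of_pos h.a0]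
  exact h.a1

theorem q_ne {q f : ℤ[X]} {a : ℝ} (h : Loc q f a) (z : ℂ) (hz : ‖z‖ = 1) : aeval z q ≠ 0 := by
  obtain ⟨s, hs, hnz⟩ := h.s
  rw [← aeval_map_real, hs, map_mul]
  apply mul_ne_zero _ (hnz z hz.le)
  simp only [map_sub, aeval_X, aeval_C]
  intro h0
  have h1 : z = (a : ℂ) := by
    rw [sub_eq_zero] at h0
    exact h0
  rw [h1, Complex.norm_real, Real.norm_eq_abs, abs_of_pos h.a0] at hz
  linarith [h.a1]

/-- Values of `f` on `[0, a]`. -/
theorem f_pos {q f : ℤ[X]} {a : ℝ} (h : Loc q f a) (hu : 1 ≤ f.coeff 0)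
    (hne : ∃ z : ℂ, ‖z‖ = 1 ∧ ‖aeval z f‖ ≠ ‖aeval z q‖) {x : ℝ} (hx0 : 0 ≤ x) (hx : x ≤ a) :
    0 < (f.map (Int.castRingHom ℝ)).eval x := by
  obtain ⟨s, hs, hsp, s0, s1, s2, hneg⟩ := h.sp
  have ha := h.a0
  have ha1 := h.a1
  set F : ℝ[X] := f.map (Int.castRingHom ℝ) with hF
  set R : ℝ[X] := s * (1 - C a * X) with hR
  have hR0 : R.coeff 0 = -a⁻¹ := by
    rw [hR, mul_sub, mul_one, coeff_sub, s0]
    have : s * (C a * X) = (C a * s) * X := by ring
    rw [this, coeff_mul_X_zero, sub_zero]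
  have hF0 : F.coeff 0 = (f.coeff 0 : ℝ) := by rw [hF, coeff_map]; rfl
  have hu' : (1 : ℝ) ≤ (f.coeff 0 : ℝ) := by exact_mod_cast hu
  have hFR : F.coeff 0 = (-(f.coeff 0 * a)) * R.coeff 0 := by
    rw [hF0, hR0]; field_simp
  have hg1 : |-(f.coeff 0 * a)| ≤ 1 := by
    obtain ⟨h1, h2⟩ := hsp.coeff_le
    rw [hFR, abs_mul] at h2
    have h3 := abs_pos.mpr h1
    by_contra hcon
    push Not at hcon
    nlinarith
  have hpos : 0 < (f.coeff 0 : ℝ) * a := by positivity
  rw [abs_neg, abs_of_pos hpos] at hg1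
  have hRx : R.eval x < 0 := by
    have h1 : R.eval x = s.eval x * (1 - a * x) := by rw [hR, eval_mul]; simp
    rw [h1]
    have h2 : 0 < 1 - a * x := by nlinarith
    exact mul_neg_of_neg_of_pos (hneg x hx0 (by linarith)) h2
  -- Schwarz-Pick
  have hpick := hsp.pick hFR hx0 (by linarith)
  set r := F.eval x / R.eval x with hr
  have hFr : F.eval x = r * R.eval x := by rw [hr, div_mul_cancel₀ _ hRx.ne]
  have h1 := (abs_le.mp hpick).2
  -- `r (1 - ua x) <= x - ua`
  have h2 : r * (1 - f.coeff 0 * a * x) ≤ x - f.coeff 0 * a := by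
    nlinarith
  have h3 : 0 < 1 - f.coeff 0 * a * x := by
    have : f.coeff 0 * a * x ≤ 1 * x := mul_le_mul_of_nonneg_right hg1 hx0
    linarith
  have h4 : x ≤ f.coeff 0 * a := by nlinarith
  rcases lt_or_eq_of_le h4 with h5 | h5
  · have h6 : r < 0 := by
      by_contra hcon
      push Not at hcon
      have := mul_nonneg hcon h3.le
      linarith
    rw [hFr]
    exact mul_pos_of_neg_of_neg h6 hRx
  · -- `u = 1`, `x = a`
    have h6 : r ≤ 0 := by
      by_contra hcon
      push Not at hcon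
      have := mul_pos hcon h3
      linarith
    rcases lt_or_eq_of_le h6 with h7 | h7
    · rw [hFr]
      exact mul_pos_of_neg_of_neg h7 hRx
    exfalso
    -- `F(a) = 0`: the quotient is the Blaschke factor
    have hxa : x = a := by
      apply le_antisymm hx
      rw [h5]
      nlinarith
    have hu1 : (f.coeff 0 : ℝ) = 1 := by
      rw [hxa] at h5
      have : (f.coeff 0 : ℝ) * a = 1 * a := by linarith
      exact mul_right_cancel₀ ha.ne' this
    have hFa : F.eval a = 0 := by rw [← hxa, hFr, h7, zero_mul]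
    obtain ⟨F1, hF1⟩ : (X - C a) ∣ F := dvd_iff_isRoot.mpr hFa
    -- `F1 / s` is a Schur function with value `1` at `0`
    have hsp2 : SP F1 s := by
      refine SP.of_circle (fun z hz h0 => ?_) (fun z hz => ?_)
      · apply hsp.nz z hz
        rw [hR, map_mul, h0, zero_mul]
      · have h8 := hsp.le z hz.le
        rw [hF1, hR, map_mul, map_mul, norm_mul, norm_mul] at h8
        have e1 : aeval z (X - C a) = z - a := by simp
        have e2 : aeval z (1 - C a * X) = 1 - a * z := by simp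
        rw [e1, e2, ← circ a z hz, mul_comm] at h8
        have h9 : 0 < ‖z - (a : ℂ)‖ := by
          rw [norm_pos_iff, sub_ne_zero]
          intro h10
          rw [h10, Complex.norm_real, Real.norm_eq_abs, abs_of_pos ha] at hz
          linarith
        exact le_of_mul_le_mul_right h8 h9
    have h10 : F1.coeff 0 = s.coeff 0 := by
      have h11 : F.coeff 0 = -(a * F1.coeff 0) := by
        rw [hF1, sub_mul, coeff_sub, coeff_X_mul_zero, coeff_C_mul, zero_sub]
      rw [hF0, hu1] at h11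
      rw [s0]
      field_simp
      linarith
    -- maximum principle: `F1 = s`
    have h12 : ∀ z : ℂ, ‖z‖ < 1 → aeval z F1 = aeval z s := by
      have hd : DifferentiableOn ℂ (fun w : ℂ => aeval w F1 / aeval w s) (Metric.ball 0 1) := by
        refine DifferentiableOn.div ?_ ?_ ?_
        · exact (Polynomial.differentiable_aeval F1).differentiableOn
        · exact (Polynomial.differentiable_aeval s).differentiableOn
        · intro w hw
          exact hsp2.nz w (by simpa using (mem_ball_zero_iff.mp hw).le)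
      have hmax : IsMaxOn (norm ∘ fun w : ℂ => aeval w F1 / aeval w s) (Metric.ball 0 1) 0 := by
        intro w hw
        have hw1 : ‖w‖ ≤ 1 := (mem_ball_zero_iff.mp hw).le
        have e0 : aeval (0 : ℂ) F1 / aeval (0 : ℂ) s = 1 := by
          have e1 : aeval (0 : ℂ) F1 = aeval (0 : ℂ) s := by
            have e2 : aeval ((0 : ℝ) : ℂ) F1 = aeval ((0 : ℝ) : ℂ) s := by
              rw [aeval_re, aeval_re, ← coeff_zero_eq_eval_zero, ← coeff_zero_eq_eval_zero, h10]
            simpa using e2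
          rw [e1, div_self (hsp2.nz 0 (by simp))]
        simp only [Set.mem_ofPred_eq, Function.comp]
        rw [e0, norm_one, norm_div, div_le_one (norm_pos_iff.mpr (hsp2.nz w hw1))]
        exact hsp2.le w hw1
      have hconst := Complex.eqOn_of_isPreconnected_of_isMaxOn_norm
        (convex_ball (0 : ℂ) 1).isPreconnected Metric.isOpen_ball hd
        (Metric.mem_ball_self one_pos) hmax
      intro z hz
      have h13 := hconst (mem_ball_zero_iff.mpr hz)
      have e0 : aeval (0 : ℂ) F1 / aeval (0 : ℂ) s = 1 := by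
        have e1 : aeval (0 : ℂ) F1 = aeval (0 : ℂ) s := by
          have e2 : aeval ((0 : ℝ) : ℂ) F1 = aeval ((0 : ℝ) : ℂ) s := by
            rw [aeval_re, aeval_re, ← coeff_zero_eq_eval_zero, ← coeff_zero_eq_eval_zero, h10]
          simpa using e2
        rw [e1, div_self (hsp2.nz 0 (by simp))]
      simp only [Function.const] at h13
      rw [e0, div_eq_one_iff_eq (hsp2.nz z hz.le)] at h13
      exact h13
    have h14 : F1 = s := by
      apply Polynomial.eq_of_infinite_eval_eq
      apply Set.Infinite.mono _ (Set.Ioo_infinite (zero_lt_one' ℝ))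
      intro t ht
      have h15 := h12 (t : ℂ) (by
        rw [Complex.norm_real, Real.norm_eq_abs, abs_of_pos ht.1]; exact ht.2)
      rw [aeval_re, aeval_re] at h15
      exact_mod_cast h15
    obtain ⟨z, hz, hzne⟩ := hne
    apply hzne
    rw [← aeval_map_real, ← hF, hF1, h14, ← hs, aeval_map_real]

/-- The loads `T^k`, `k ≥ 1`: the constant coefficient has no zero in the open disc or exactly one,
which is real and larger than `a`. -/
theorem lob (hP : PCZS) {q f : ℤ[X]} {a : ℝ} (h : Loc q f a) (hu : 1 ≤ f.coeff 0)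
    (hne : ∃ z : ℂ, ‖z‖ = 1 ∧ ‖aeval z f‖ ≠ ‖aeval z q‖) {k : ℕ} (hk : 1 ≤ k) :
    (∀ z : ℂ, ‖z‖ < 1 → aeval z (q + X ^ k * f) ≠ 0) ∨ ∃ b : ℝ, a < b ∧ b < 1 ∧
      ((q + X ^ k * f).map (Coef.emb : ℤ →+* ℂ)).roots.filter (fun x => ‖x‖ < 1) = {(b : ℂ)} := by
  have ha := h.a0
  have ha1 := h.a1
  have hc0 : (q + X ^ k * f).coeff 0 = 1 := by
    rw [coeff_add, h.q0, mul_coeff_zero, coeff_X_pow, if_neg (by omega), zero_mul, add_zero]
  have hV0 : (q + X ^ k * f).map (Coef.emb : ℤ →+* ℂ) ≠ 0 := by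
    intro h0
    have h1 : ((q + X ^ k * f).map (Coef.emb : ℤ →+* ℂ)).coeff 0 = 0 := by rw [h0, coeff_zero]
    rw [coeff_map, hc0, map_one] at h1
    exact one_ne_zero h1
  have hVm : (q + X ^ k * f).map (Coef.emb : ℤ →+* ℂ) =
      q.map (Coef.emb : ℤ →+* ℂ) + (X ^ k * f).map (Coef.emb : ℤ →+* ℂ) := Polynomial.map_add _
  have hcard := hP (a : ℂ) (q.map (Coef.emb : ℤ →+* ℂ)) ((X ^ k * f).map (Coef.emb : ℤ →+* ℂ))
    (roots_loc h) (fun z hz => by rw [ev_map]; exact q_ne h z hz) (fun z hz => by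
      rw [ev_map, ev_map, map_mul, map_pow, aeval_X, norm_mul, norm_pow, hz, one_pow, one_mul]
      exact h.le z hz) (by rw [← hVm]; exact hV0)
  rw [← hVm] at hcard
  rcases Nat.eq_zero_or_pos (((q + X ^ k * f).map (Coef.emb : ℤ →+* ℂ)).roots.filter
    (fun x => ‖x‖ < 1)).card with h0 | h0
  · left
    intro z hz hz0
    rw [Multiset.card_eq_zero, Multiset.filter_eq_nil] at h0
    refine h0 z ((mem_roots hV0).mpr ?_) hz
    change ((q + X ^ k * f).map (Coef.emb : ℤ →+* ℂ)).eval z = 0
    rw [ev_map, hz0]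
  · right
    have h1 : (((q + X ^ k * f).map (Coef.emb : ℤ →+* ℂ)).roots.filter
      (fun x => ‖x‖ < 1)).card = 1 := by omega
    obtain ⟨w, hw⟩ := Multiset.card_eq_one.mp h1
    obtain ⟨b, rfl⟩ := Pool.Agent.B5.Nr.E2.real_root _ w hw
    have hmem : (b : ℂ) ∈ ((q + X ^ k * f).map (Coef.emb : ℤ →+* ℂ)).roots.filter
      (fun x => ‖x‖ < 1) := by rw [hw]; exact Multiset.mem_singleton_self _
    obtain ⟨h2, h3⟩ := Multiset.mem_filter.mp hmem
    rw [Complex.norm_real, Real.norm_eq_abs] at h3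
    have h4 : aeval (b : ℂ) (q + X ^ k * f) = 0 := by
      rw [← ev_map]; exact (mem_roots hV0).mp h2
    obtain ⟨hb1, hb2⟩ := abs_lt.mp h3
    refine ⟨b, ?_, hb2, hw⟩
    -- real values
    have h5 : (q.map (Int.castRingHom ℝ)).eval b + b ^ k * (f.map (Int.castRingHom ℝ)).eval b =
        0 := by
      rw [map_add, map_mul, map_pow, aeval_X, ae_re, ae_re] at h4
      exact_mod_cast h4
    obtain ⟨s, hs, hsp, s0, s1, s2, hneg⟩ := h.sp
    rw [hs] at h5
    have h6 : ((X - C a) * s).eval b = (b - a) * s.eval b := by simp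
    rw [h6] at h5
    have h7 : (s * (1 - C a * X)).eval b = s.eval b * (1 - a * b) := by simp
    by_contra hcon
    push Not at hcon
    rcases le_or_gt 0 b with hb | hb
    · have h8 := f_pos h hu hne hb hcon
      have h9 := hneg b hb hb2.le
      have h10 : 0 ≤ (b - a) * s.eval b := mul_nonneg_of_nonpos_of_nonpos (by linarith) h9.le
      rcases eq_or_lt_of_le hb with hb0 | hb0
      · have h11 : s.eval b = -a⁻¹ := by rw [← hb0, ← coeff_zero_eq_eval_zero, s0]
        rw [h11, ← hb0, zero_pow (by omega), zero_mul, add_zero] at h5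
        have : (0 - a) * -a⁻¹ = 1 := by field_simp; ring
        linarith
      · have := mul_pos (pow_pos hb0 k) h8
        linarith
    · -- negative `b`
      obtain ⟨h8, h9⟩ := hsp.ev (x := b) h3.le
      rw [h7] at h8 h9
      have h10 : |b - a| * |s.eval b| = |b| ^ k * |(f.map (Int.castRingHom ℝ)).eval b| := by
        have h11 : (b - a) * s.eval b = -(b ^ k * (f.map (Int.castRingHom ℝ)).eval b) := by
          linarith
        rw [← abs_mul, h11, abs_neg, abs_mul, abs_pow]
      have h11 : |b| ^ k ≤ |b| := by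
        calc |b| ^ k ≤ |b| ^ 1 := pow_le_pow_of_le_one (abs_nonneg b) h3.le hk
          _ = |b| := pow_one _
      have hs0 : 0 < |s.eval b| := by
        apply abs_pos.mpr
        intro h12
        exact h8 (by rw [h12, zero_mul])
      rw [abs_mul] at h9
      have h12 : |b - a| * |s.eval b| ≤ |b| * (|s.eval b| * |1 - a * b|) := by
        rw [h10]
        calc |b| ^ k * |(f.map (Int.castRingHom ℝ)).eval b| ≤
              |b| * |(f.map (Int.castRingHom ℝ)).eval b| :=
              mul_le_mul_of_nonneg_right h11 (abs_nonneg _)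
          _ ≤ |b| * (|s.eval b| * |1 - a * b|) := mul_le_mul_of_nonneg_left h9 (abs_nonneg _)
      have h13 : |b - a| ≤ |b| * |1 - a * b| := by
        have h14 : |b - a| * |s.eval b| ≤ (|b| * |1 - a * b|) * |s.eval b| := by linarith
        exact le_of_mul_le_mul_right h14 hs0
      have e1 : |b - a| = a - b := by rw [abs_of_neg (by linarith)]; ring
      have e2 : |b| = -b := abs_of_neg hb
      have e3 : |1 - a * b| = 1 - a * b := abs_of_pos (by nlinarith)
      rw [e1, e2, e3] at h13
      have h14 : 0 < a * (1 - b ^ 2) := mul_pos ha (by nlinarith)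
      nlinarith

end Pool.Agent.B5.KE
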