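import Pool.Agent.Lib.MP_b5021c_nt.KE.H96.One

/-!
# MP_b5021c_nt, all `θ`, K even: one-variable facts, second part
-/

namespace Pool.Agent.B5.KE

open Polynomial
open Pool.Agent.B5.Nr.Sch

/-- If a Schur pair has a value of modulus one in the open disc, then equal to `1`, it is
constant. -/
theorem sp_eq {F R : ℝ[X]} (h : SP F R) {w : ℂ} (hw : ‖w‖ < 1) (he : aeval w F = aeval w R) :
    F = R := by
  have hval : aeval w F / aeval w R = 1 := by
    rw [he, div_self (h.nz w hw.le)]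
  have hd : DifferentiableOn ℂ (fun w : ℂ => aeval w F / aeval w R) (Metric.ball 0 1) := by
    refine DifferentiableOn.div ?_ ?_ ?_
    · exact (Polynomial.differentiable_aeval F).differentiableOn
    · exact (Polynomial.differentiable_aeval R).differentiableOn
    · intro w hw
      exact h.nz w (by simpa using (mem_ball_zero_iff.mp hw).le)
  have hmax : IsMaxOn (norm ∘ fun w : ℂ => aeval w F / aeval w R) (Metric.ball 0 1) w := by
    intro v hv
    have hv1 : ‖v‖ ≤ 1 := (mem_ball_zero_iff.mp hv).le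
    simp only [Set.mem_ofPred_eq, Function.comp]
    rw [hval, norm_one, norm_div, div_le_one (norm_pos_iff.mpr (h.nz v hv1))]
    exact h.le v hv1
  have hconst := Complex.eqOn_of_isPreconnected_of_isMaxOn_norm
    (convex_ball (0 : ℂ) 1).isPreconnected Metric.isOpen_ball hd
    (mem_ball_zero_iff.mpr hw) hmax
  apply Polynomial.eq_of_infinite_eval_eq
  apply Set.Infinite.mono _ (Set.Ioo_infinite (zero_lt_one' ℝ))
  intro t ht
  have ht1 : ‖(t : ℂ)‖ < 1 := by
    rw [Complex.norm_real, Real.norm_eq_abs, abs_of_pos ht.1]; exact ht.2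
  have h13 := hconst (mem_ball_zero_iff.mpr ht1)
  simp only [Function.const] at h13
  rw [hval, div_eq_one_iff_eq (h.nz _ ht1.le), aeval_re, aeval_re] at h13
  exact_mod_cast h13

/-- The load of type A, `u = 1`: `f - q = z E`, `E` without zeros in the open disc. -/
theorem typa {q f : ℤ[X]} {a : ℝ} (h : Loc q f a) (hu : f.coeff 0 = 1)
    (hne : ∃ z : ℂ, ‖z‖ = 1 ∧ ‖aeval z f‖ ≠ ‖aeval z q‖) : ∃ E : ℤ[X], f - q = X * E ∧
      E.coeff 0 = f.coeff 1 - q.coeff 1 ∧ 1 ≤ E.coeff 0 ∧ ∀ z : ℂ, ‖z‖ < 1 → aeval z E ≠ 0 := by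
  obtain ⟨s, hs, hsp, s0, s1, s2, hneg⟩ := h.sp
  have ha := h.a0
  have ha1 := h.a1
  obtain ⟨E, hE⟩ : (X : ℤ[X]) ∣ f - q := by
    rw [X_dvd_iff, coeff_sub, hu, h.q0, sub_self]
  have hE1 : E.coeff 0 = f.coeff 1 - q.coeff 1 := by
    rw [← coeff_sub, hE, coeff_X_mul]
  set F : ℝ[X] := f.map (Int.castRingHom ℝ) with hF
  set R : ℝ[X] := s * (1 - C a * X) with hR
  have hR0 : R.coeff 0 = -a⁻¹ := by
    rw [hR, mul_sub, mul_one, coeff_sub, s0]
    have : s * (C a * X) = (C a * s) * X := by ring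
    rw [this, coeff_mul_X_zero, sub_zero]
  have hF0 : F.coeff 0 = 1 := by
    rw [hF, coeff_map, hu]; simp
  have hFR : F.coeff 0 = (-a) * R.coeff 0 := by
    rw [hF0, hR0]; field_simp
  have hg1 : |-a| < 1 := by rw [abs_neg, abs_of_pos ha]; exact ha1
  obtain ⟨F1, hF1⟩ := exists_quot F R hFR
  have hsp1 := hsp.step hg1 hF1
  set R1 : ℝ[X] := R - C (-a) * F with hR1
  have hEm : X * E.map (Int.castRingHom ℝ) = F - (X - C a) * s := by
    have := congrArg (fun p : ℤ[X] => p.map (Int.castRingHom ℝ)) hE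
    simp only [Polynomial.map_sub, Polynomial.map_mul, map_X] at this
    rw [← this, ← hs]
  have key : (1 - C a * X) * E.map (Int.castRingHom ℝ) = F1 - R1 := by
    apply mul_left_cancel₀ (X_ne_zero (R := ℝ))
    calc X * ((1 - C a * X) * E.map (Int.castRingHom ℝ)) =
          (1 - C a * X) * (X * E.map (Int.castRingHom ℝ)) := by ring
      _ = (1 - C a * X) * (F - (X - C a) * s) := by rw [hEm]
      _ = (F - C (-a) * R) - X * (R - C (-a) * F) := by
          rw [hR, C_neg]; ring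
      _ = X * (F1 - R1) := by rw [← hF1, hR1]; ring
  have hzf : ∀ z : ℂ, ‖z‖ < 1 → aeval z E ≠ 0 := by
    intro z hz h0
    have h1 : aeval z F1 = aeval z R1 := by
      have h2 := congrArg (fun p => aeval z p) key
      simp only [map_mul, map_sub] at h2
      rw [aeval_map_real, h0, mul_zero] at h2
      exact (sub_eq_zero.mp h2.symm)
    have h2 := sp_eq hsp1 hz h1
    rw [h2, sub_self] at key
    have h3 : (1 - C a * X : ℝ[X]) ≠ 0 := by
      intro h4
      have := congrArg (fun p => p.coeff 0) h4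
      simp at this
    have h4 : E.map (Int.castRingHom ℝ) = 0 := (mul_eq_zero.mp key).resolve_left h3
    have h5 : E = 0 := (Polynomial.map_eq_zero_iff (RingHom.injective_int _)).mp h4
    rw [h5, mul_zero, sub_eq_zero] at hE
    obtain ⟨w, -, hw⟩ := hne
    exact hw (by rw [hE])
  refine ⟨E, hE, hE1, ?_, hzf⟩
  have h1 : (E.coeff 0 : ℝ) = F1.coeff 0 - R1.coeff 0 := by
    have h2 := congrArg (fun p : ℝ[X] => p.coeff 0) key
    simp only [mul_coeff_zero, coeff_sub, coeff_C_zero, coeff_X_zero, mul_zero, sub_zero,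
      coeff_one_zero, one_mul, coeff_map] at h2
    exact_mod_cast h2
  have h2 : R1.coeff 0 = -a⁻¹ + a := by
    rw [hR1, coeff_sub, hR0, C_neg, neg_mul, coeff_neg, coeff_C_mul, hF0]; ring
  have h3 : R1.coeff 0 < 0 := by
    rw [h2]
    have : 1 < a⁻¹ := (one_lt_inv₀ ha).mpr ha1
    linarith
  have h4 := hsp1.coeff_le.2
  rw [abs_of_neg h3] at h4
  have h5 := (abs_le.mp h4).1
  have h6 : (0 : ℝ) ≤ (E.coeff 0 : ℝ) := by rw [h1]; linarith
  have h7 : 0 ≤ E.coeff 0 := by exact_mod_cast h6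
  have h8 : E.coeff 0 ≠ 0 := by
    intro h9
    apply hzf 0 (by simp)
    have : aeval (0 : ℂ) E = ((E.coeff 0 : ℤ) : ℂ) := by
      rw [coeff_zero_eq_aeval_zero]
      have : (0 : ℂ) = algebraMap ℤ ℂ 0 := by simp
      rw [this, aeval_algebraMap_apply]
      simp
    rw [this, h9, Int.cast_zero]
  omega

/-- The sign of `q + z^k f` right of its zero. -/
theorem sgn {q f : ℤ[X]} {k : ℕ} (hk : 1 ≤ k) (hq : q.coeff 0 = 1) {b p : ℝ} (hb0 : 0 < b)
    (hb : ((q + X ^ k * f).map (Coef.emb : ℤ →+* ℂ)).roots.filter (fun x => ‖x‖ < 1) = {(b : ℂ)})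
    (hbp : b ≤ p) (hp : p < 1) : (aeval p (q + X ^ k * f) : ℝ) ≤ 0 := by
  set V : ℤ[X] := q + X ^ k * f with hV
  have hc0 : V.coeff 0 = 1 := by
    rw [hV, coeff_add, hq, mul_coeff_zero, coeff_X_pow, if_neg (by omega), zero_mul, add_zero]
  have hV0 : V.map (Coef.emb : ℤ →+* ℂ) ≠ 0 := by
    intro h0
    have h1 : (V.map (Coef.emb : ℤ →+* ℂ)).coeff 0 = 0 := by rw [h0, coeff_zero]
    rw [coeff_map, hc0, map_one] at h1
    exact one_ne_zero h1
  have hmem : (b : ℂ) ∈ (V.map (Coef.emb : ℤ →+* ℂ)).roots.filter (fun x => ‖x‖ < 1) := by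
    rw [hb]; exact Multiset.mem_singleton_self _
  obtain ⟨h2, h3⟩ := Multiset.mem_filter.mp hmem
  have h4 : (V.map (Int.castRingHom ℝ)).eval b = 0 := by
    have h5 : aeval (b : ℂ) V = 0 := by rw [← ev_map]; exact (mem_roots hV0).mp h2
    rw [ae_re] at h5
    exact_mod_cast h5
  obtain ⟨W, hW⟩ : (X - C b) ∣ V.map (Int.castRingHom ℝ) := dvd_iff_isRoot.mpr h4
  -- `W` has no zero in the open disc
  have hWc : V.map (Coef.emb : ℤ →+* ℂ) = (X - C (b : ℂ)) * W.map Complex.ofRealHom := by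
    have h5 := congrArg (fun p : ℝ[X] => p.map Complex.ofRealHom) hW
    simp only [Polynomial.map_mul, Polynomial.map_sub, map_X, map_C, Polynomial.map_map] at h5
    have h6 : (Complex.ofRealHom).comp (Int.castRingHom ℝ) = Int.castRingHom ℂ :=
      RingHom.ext_int _ _
    rw [h6] at h5
    exact h5
  have hW0 : W.map Complex.ofRealHom ≠ 0 := by
    intro h0
    rw [h0, mul_zero] at hWc
    exact hV0 hWc
  have hWz : ∀ t : ℝ, 0 ≤ t → t < 1 → W.eval t ≠ 0 := by
    intro t ht0 ht1 h0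
    rw [hWc, roots_mul (mul_ne_zero (X_sub_C_ne_zero _) hW0), roots_X_sub_C,
      Multiset.filter_add] at hb
    have h5 : Multiset.filter (fun x : ℂ => ‖x‖ < 1) {(b : ℂ)} = {(b : ℂ)} := by
      rw [Multiset.filter_singleton, if_pos h3]
    rw [h5] at hb
    have h6 : Multiset.filter (fun x : ℂ => ‖x‖ < 1) (W.map Complex.ofRealHom).roots = 0 := by
      have := congrArg Multiset.card hb
      rw [Multiset.card_add, Multiset.card_singleton] at this
      exact Multiset.card_eq_zero.mp (by omega)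
    rw [Multiset.filter_eq_nil] at h6
    refine h6 (t : ℂ) ((mem_roots hW0).mpr ?_) (by
      rw [Complex.norm_real, Real.norm_eq_abs, abs_of_nonneg ht0]; exact ht1)
    change (W.map Complex.ofRealHom).eval (Complex.ofRealHom t) = 0
    rw [eval_map, eval₂_hom, h0, map_zero]
  have hVev : ∀ x : ℝ, (aeval x V : ℝ) = (x - b) * W.eval x := by
    intro x
    have : (aeval x V : ℝ) = (V.map (Int.castRingHom ℝ)).eval x := by
      rw [eval_map, aeval_def]; rfl
    rw [this, hW]
    simp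
  have hW00 : W.eval 0 < 0 := by
    have h5 := hVev 0
    have h6 : (aeval (0 : ℝ) V : ℝ) = 1 := by
      have : (0 : ℝ) = algebraMap ℤ ℝ 0 := by simp
      rw [this, aeval_algebraMap_apply, ← coeff_zero_eq_aeval_zero, hc0]
      simp
    rw [h6] at h5
    nlinarith
  rw [hVev]
  apply mul_nonpos_of_nonneg_of_nonpos (by linarith)
  by_contra hcon
  push Not at hcon
  have hc : ContinuousOn (fun t => W.eval t) (Set.Icc 0 p) := by fun_prop
  obtain ⟨t, ht, ht0⟩ := intermediate_value_Icc (by linarith) hc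
    (show (0 : ℝ) ∈ Set.Icc (W.eval 0) (W.eval p) from ⟨hW00.le, hcon.le⟩)
  exact hWz t ht.1 (lt_of_le_of_lt ht.2 hp) ht0

end Pool.Agent.B5.KE
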