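import Pool.Agent.Lib.MP_b5021c_nt.KE.H96.Flip
import Pool.Agent.Lib.MP_b5021c_nt.KE.H96.Two
import Pool.Agent.Lib.MP_b5021c_nt.E.H78.Mono
import Pool.Agent.Lib.MP_b5021c_nt.E.H78.Fcl
import Pool.Agent.Lib.MP_b5021c_nt.IfaceALL

/-!
# MP_b5021c_nt, all `θ`: normalisation; the induction step for even rank
-/

namespace Pool.Agent.B5.KE

open scoped LaurentPolynomial
open Polynomial
open Pool.Agent.B5.Nr.Sch
open Pool.Agent.B5.H40 (uT)

/-- The factor `X - a`. -/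
theorem fac_of {q : ℤ[X]} {a : ℝ} (h0 : q.coeff 0 ≠ 0)
    (hr : (q.map (Coef.emb : ℤ →+* ℂ)).roots.filter (fun x => ‖x‖ < 1) = {(a : ℂ)})
    (hc : ∀ z : ℂ, ‖z‖ = 1 → aeval z q ≠ 0) : ∃ s : ℝ[X],
      q.map (Int.castRingHom ℝ) = (X - C a) * s ∧ ∀ z : ℂ, ‖z‖ ≤ 1 → aeval z s ≠ 0 := by
  have hV0 : q.map (Coef.emb : ℤ →+* ℂ) ≠ 0 := by
    intro h1
    have h2 : (q.map (Coef.emb : ℤ →+* ℂ)).coeff 0 = 0 := by rw [h1, coeff_zero]
    rw [coeff_map] at h2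
    exact h0 (emb_inj (by rw [h2, map_zero]))
  have hmem : (a : ℂ) ∈ (q.map (Coef.emb : ℤ →+* ℂ)).roots.filter (fun x => ‖x‖ < 1) := by
    rw [hr]; exact Multiset.mem_singleton_self _
  obtain ⟨h2, h3⟩ := Multiset.mem_filter.mp hmem
  have h4 : (q.map (Int.castRingHom ℝ)).eval a = 0 := by
    have h5 : aeval (a : ℂ) q = 0 := by rw [← ev_map]; exact (mem_roots hV0).mp h2
    rw [ae_re] at h5
    exact_mod_cast h5
  obtain ⟨W, hW⟩ : (X - C a) ∣ q.map (Int.castRingHom ℝ) := dvd_iff_isRoot.mpr h4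
  refine ⟨W, hW, ?_⟩
  have hWc : q.map (Coef.emb : ℤ →+* ℂ) = (X - C (a : ℂ)) * W.map Complex.ofRealHom := by
    have h5 := congrArg (fun p : ℝ[X] => p.map Complex.ofRealHom) hW
    simp only [Polynomial.map_mul, Polynomial.map_sub, map_X, map_C, Polynomial.map_map] at h5
    have h6 : (Complex.ofRealHom).comp (Int.castRingHom ℝ) = Int.castRingHom ℂ :=
      RingHom.ext_int _ _
    rw [h6] at h5
    exact h5
  have hW0 : W.map Complex.ofRealHom ≠ 0 := by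
    intro h0
    rw [h0, mul_zero] at hWc
    exact hV0 hWc
  have hWe : ∀ z : ℂ, aeval z W = (W.map Complex.ofRealHom).eval z := by
    intro z
    rw [eval_map, aeval_def]; rfl
  intro z hz hz0
  rcases lt_or_eq_of_le hz with h5 | h5
  · rw [hWc, roots_mul (mul_ne_zero (X_sub_C_ne_zero _) hW0), roots_X_sub_C,
      Multiset.filter_add] at hr
    have h6 : Multiset.filter (fun x : ℂ => ‖x‖ < 1) {(a : ℂ)} = {(a : ℂ)} := by
      rw [Multiset.filter_singleton, if_pos h3]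
    rw [h6] at hr
    have h7 : Multiset.filter (fun x : ℂ => ‖x‖ < 1) (W.map Complex.ofRealHom).roots = 0 := by
      have := congrArg Multiset.card hr
      rw [Multiset.card_add, Multiset.card_singleton] at this
      exact Multiset.card_eq_zero.mp (by omega)
    rw [Multiset.filter_eq_nil] at h7
    refine h7 z ((mem_roots hW0).mpr ?_) h5
    change (W.map Complex.ofRealHom).eval z = 0
    rw [← hWe, hz0]
  · apply hc z h5
    rw [← aeval_map_real, hW, map_mul, hz0, mul_zero]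

/-- The factor after the flip. -/
theorem fac_flip {q : ℤ[X]} {a : ℝ} {s : ℝ[X]}
    (h : q.map (Int.castRingHom ℝ) = (X - C a) * s) (hz : ∀ z : ℂ, ‖z‖ ≤ 1 → aeval z s ≠ 0) :
    ∃ s' : ℝ[X], (q.comp (-X)).map (Int.castRingHom ℝ) = (X - C (-a)) * s' ∧
      ∀ z : ℂ, ‖z‖ ≤ 1 → aeval z s' ≠ 0 := by
  refine ⟨-(s.comp (-X)), ?_, ?_⟩
  · rw [Polynomial.map_comp, h, Polynomial.map_neg, map_X, mul_comp, sub_comp, X_comp, C_comp,
      C_neg]
    ring
  · intro z hz1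
    rw [map_neg, aeval_comp, map_neg, aeval_X]
    exact neg_ne_zero.mpr (hz (-z) (by rwa [norm_neg]))

/-- NORMALISATION: an element with facet ports of class `P(θ)` may be replaced by one with
`D_0 = q`, `q(0) = 1`, and the zero `1/θ > 0` (`D` times a unit, or its flip). -/
theorem norm_fp (hE2 : E2S) {P L : Type} [Fintype P] [DecidableEq P] [AddCommGroup L]
    [Module.Free ℤ L] [Module.Finite ℤ L] {phi : L →+ (P → ℤ)} {D : AO ℤ L} {θ : ℝ}
    (fp : FP phi D) (h2 : 2 ≤ Module.finrank ℤ L) (hP : ClassP θ (D.coeff 0)) :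
    ∃ (D' : AO ℤ L) (q : ℤ[X]), FP phi D' ∧ D'.coeff 0 = toLaurent q ∧ Qn q θ⁻¹ ∧
      supp D' = supp D := by
  obtain ⟨hθ, n, q', hQ, hq0, w, hw, hroots⟩ := hP
  have hθ0 : 0 < θ := by linarith
  have hc0 := (hE2 ℤ P L phi D fp.dd h2).1
  obtain ⟨a, rfl⟩ := Pool.Agent.B5.Nr.E2.real_root q' w hroots
  rw [Complex.norm_real, Real.norm_eq_abs] at hw
  have hq1 : |q'.coeff 0| = 1 := by
    have h1 : ‖((q'.coeff 0 : ℤ) : ℂ)‖ = 1 := hq0
    rw [Complex.norm_intCast] at h1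
    exact_mod_cast h1
  have hqu : IsUnit (q'.coeff 0) := Int.isUnit_iff.mpr (by
    rcases abs_eq (zero_le_one) |>.mp hq1 with h | h
    · exact Or.inl h
    · exact Or.inr h)
  obtain ⟨s, hs⟩ := hqu
  have hss : ((s : ℤ)) * q'.coeff 0 = 1 := by
    rw [← hs, ← Units.val_mul, Int.units_mul_self, Units.val_one]
  have hqc : ∀ z : ℂ, ‖z‖ = 1 → aeval z q' ≠ 0 := by
    intro z hz h0
    obtain ⟨zc, rfl⟩ : ∃ zc : Circle, (zc : ℂ) = z := ⟨⟨z, mem_sphere_zero_iff_norm.mpr hz⟩, rfl⟩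
    apply hc0 zc
    have h1 := H40.norm_evR zc n q'
    rw [← hQ, ev_map, h0, norm_zero] at h1
    exact norm_eq_zero.mp h1
  obtain ⟨s1, hs1, hz1⟩ := fac_of (q := q') (a := a) (by
    intro h
    rw [h, abs_zero] at hq1
    exact zero_ne_one hq1) hroots hqc
  -- the unit
  obtain ⟨D1, hD1⟩ : ∃ D1 : AO ℤ L, D1 = cst ((uT s (-n) : (RO ℤ)ˣ) : RO ℤ) * D := ⟨_, rfl⟩
  have hu0 : ((uT s (-n) : (RO ℤ)ˣ) : RO ℤ) ≠ 0 := (uT s (-n) : (RO ℤ)ˣ).ne_zero
  have hsup : supp D1 = supp D := by rw [hD1, H78.supp_cst_mul hu0]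
  have hfp1 : FP phi D1 := by
    refine fp_congr fp ?_ hsup
    rw [hD1]
    refine H78.dd_cst (uT s (-n) : (RO ℤ)ˣ).isUnit ?_ fp.dd
    intro z
    exact ((uT s (-n) : (RO ℤ)ˣ).isUnit.map (evR z)).ne_zero
  have hco : D1.coeff 0 = toLaurent (C (s : ℤ) * q') := by
    rw [hD1, H78.cstm, hQ, H40.uT_val, map_mul, toLaurent_C]
    have h1 : (LaurentPolynomial.T (-n) : RO ℤ) * LaurentPolynomial.T n = 1 := by
      rw [← LaurentPolynomial.T_add, neg_add_cancel, LaurentPolynomial.T_zero]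
    calc LaurentPolynomial.C (s : ℤ) * LaurentPolynomial.T (-n) *
          (LaurentPolynomial.T n * toLaurent q')
        = LaurentPolynomial.C (s : ℤ) * (LaurentPolynomial.T (-n) * LaurentPolynomial.T n) *
          toLaurent q' := by ring
      _ = _ := by rw [h1, mul_one]
  have hq10 : (C (s : ℤ) * q').coeff 0 = 1 := by rw [coeff_C_mul, hss]
  -- the factor
  have hsne : ((s : ℤ) : ℝ) ≠ 0 := by exact_mod_cast s.ne_zero
  have hf1 : (C (s : ℤ) * q').map (Int.castRingHom ℝ) = (X - C a) * (C ((s : ℤ) : ℝ) * s1) := by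
    rw [Polynomial.map_mul, hs1, map_C]
    change C ((s : ℤ) : ℝ) * _ = _
    ring
  have hz1' : ∀ z : ℂ, ‖z‖ ≤ 1 → aeval z (C ((s : ℤ) : ℝ) * s1) ≠ 0 := by
    intro z hz
    rw [map_mul, aeval_C]
    refine mul_ne_zero ?_ (hz1 z hz)
    change (((s : ℤ) : ℝ) : ℂ) ≠ 0
    exact_mod_cast hsne
  have hinv1 : θ⁻¹ < 1 := inv_lt_one_of_one_lt₀ hθ
  have hinv0 : 0 < θ⁻¹ := inv_pos.mpr hθ0
  rcases le_or_gt 0 a with ha | ha
  · rw [abs_of_nonneg ha] at hw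
    rw [← hw]
    exact ⟨D1, C (s : ℤ) * q', hfp1, hco, ⟨by rw [hw]; exact hinv0, by rw [hw]; exact hinv1, hq10,
      _, hf1, hz1'⟩, hsup⟩
  · rw [abs_of_neg ha] at hw
    rw [← hw]
    obtain ⟨s2, hs2, hz2⟩ := fac_flip hf1 hz1'
    refine ⟨fl D1, (C (s : ℤ) * q').comp (-X), fp_fl hfp1, ?_, ⟨by rw [hw]; exact hinv0,
      by rw [hw]; exact hinv1, ?_, s2, hs2, hz2⟩, ?_⟩
    · rw [fl_coeff, hco, fz_toLaurent]
    · rw [coeff_zero_eq_eval_zero, eval_comp, eval_neg, eval_X, neg_zero,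
        ← coeff_zero_eq_eval_zero, hq10]
    · rw [supp_fl, hsup]

/-- The induction step for even rank. -/
theorem kest (hE2 : E2S) (hFp : FpRedS) (hMono : MonoS) (hKev : KevS) : KeStS := by
  intro j hj hIH θ P L _ _ _ _ _ phi D hD hP hfr
  refine ⟨fun _ => ?_, fun ho => ?_⟩
  swap
  · rw [Nat.odd_iff] at ho
    omega
  have hθ2 : 2 ≤ θ := by
    obtain ⟨P', L', _, _, _, _, _, phi', D', hD', hf', hP'⟩ := H78.Mono.mono_to hMono ℤ θ 3
      (by norm_num) (2 * j - 3) P L phi D hD hP (by omega)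
    have h1 := (hIH 3 (by omega) θ P' L' phi' D' hD' hP' hf').2 (by decide)
    norm_num at h1
    linarith
  obtain ⟨P', L', _, _, _, _, _, phi', D', fp', hf', hcls, -⟩ := hFp ℤ P L phi D hD (by omega)
    (Or.inr ⟨θ, hP⟩)
  have hP' := hcls.2 θ hP
  obtain ⟨D1, q, fp1, h0, hq, -⟩ := norm_fp hE2 fp' (by omega) hP'
  have ha : θ⁻¹ ≤ 1 / 2 := by
    rw [one_div]
    exact inv_anti₀ (by norm_num) hθ2
  have h1 := hKev P' L' phi' D1 q θ⁻¹ j fp1 h0 hq ha hj (by omega) hIH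
  rw [inv_inv] at h1
  push_cast
  rw [one_div]
  linarith

end Pool.Agent.B5.KE
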