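import Pool.Agent.Lib.MP_b5021c_nt.KE.H96.EndA
import Pool.Agent.Lib.MP_b5021c_nt.E.H78.Sel

/-!
# MP_b5021c_nt, all `θ`, K EVEN: the assembly (PaperALL.md, section 6)
-/

namespace Pool.Agent.B5.KE

open scoped LaurentPolynomial
open Polynomial
open Pool.Agent.B5.Nr.Sch
open Pool.Agent.B5.H61 (CuspS)
open Pool.Agent.B5.Nr (TrezS)

section

variable {P L : Type} [Fintype P] [DecidableEq P] [AddCommGroup L] [Module.Free ℤ L]
  [Module.Finite ℤ L] {phi : L →+ (P → ℤ)} {D : AO ℤ L}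

/-- `n = 1` at the load A: terminal. -/
theorem n_ne_one (hTr : TrezS) {S : L} {q f : ℤ[X]} {e : (RO ℤ)ˣ} {a : ℝ} {j : ℕ}
    (hD : DD phi D) (hS : Ray D S) (hR : RN D S q f e a) (hu : f.coeff 0 = 1)
    (hfr : Module.finrank ℤ L = 2 * j) (hj : 2 ≤ j) (ha : a ≤ 1 / 2) (hwin : a⁻¹ - a < j) :
    f.coeff 1 - q.coeff 1 ≠ 1 := by
  intro hn
  obtain ⟨E, hE, hE0, -, hEz⟩ := typa hR.loc hu hR.ne
  have ha0 := hR.loc.a0
  have h1 : (2 : ℝ) ≤ a⁻¹ := by
    have : (1 / 2 : ℝ)⁻¹ ≤ a⁻¹ := inv_anti₀ ha0 ha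
    rwa [one_div, inv_inv] at this
  have h2 := (hTr P L phi D S (-e) a⁻¹ hD (by omega) hS h1 (classP_q hR) (by
    refine ⟨0, q, -E, ?_, ?_, ?_, ?_, ?_⟩
    · rw [LaurentPolynomial.T_zero, one_mul, hR.D0]
    · rw [V0_A hR, zero_add]
      have h3 : q - f = X * -E := by rw [mul_neg, ← hE]; ring
      rw [h3, map_mul, toLaurent_X]
    · rw [hR.loc.q0, map_one, norm_one]
    · rw [coeff_neg, hE0, hn, map_neg, map_one, norm_neg, norm_one]
    · intro z hz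
      rw [ev_map, map_neg]
      exact neg_ne_zero.mpr (hEz z hz))).1
  rw [hfr, inv_inv] at h2
  push_cast at h2
  linarith

/-- A big factor at the load B: the closed coefficient has a zero in the open disc. -/
theorem zero_B (hMV : MVS) (hMm : MmulS) {S : L} {i0 : P} {q f : ℤ[X]}
    {e : (RO ℤ)ˣ} {a : ℝ} {h : co phi i0 S = 1} {c : RO ℤ} {n : ℕ}
    {G : Fin n → AO ℤ (Ker (co phi i0))} (hR : RN D S q f e a)
    (fd : FD phi D S i0 (ld e 1) h c n G) (hb : big G ≠ ∅) :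
    ∃ b : ℂ, ‖b‖ < 1 ∧ aeval b (q + X * f) = 0 := by
  classical
  have hx : ∀ i, (G i).coeff 0 ≠ 0 := fun i => (fd.st i).1
  by_contra hcon
  push Not at hcon
  obtain ⟨i, hi⟩ := Finset.nonempty_iff_ne_empty.mpr hb
  have hi1 : 1 < M ((G i).coeff 0) := by
    unfold big at hi
    exact (Finset.mem_filter.mp hi).2
  have h0 := V0_ld hR 1
  rw [pow_one] at h0
  have h0' : D.coeff 0 + ((ld e 1 : (RO ℤ)ˣ) : RO ℤ) * D.coeff S = toLaurent (q + X * f) := h0
  have h2 : ClassV 1 (D.coeff 0 + ((ld e 1 : (RO ℤ)ˣ) : RO ℤ) * D.coeff S) := by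
    refine ⟨le_refl 1, 0, q + X * f, ?_, ?_, ?_⟩
    · rw [h0', LaurentPolynomial.T_zero, one_mul]
    · rw [coeff_add, hR.loc.q0, coeff_X_mul_zero, add_zero, map_one, norm_one]
    · intro z hz
      rw [ev_map]
      exact hcon z hz
  have h3 := ((hMV ℤ).1 _ _ h2).2
  have h4 := H56.one_lt_prod hMm Finset.univ _ hx i (Finset.mem_univ i) hi1
  rw [fd.v00, (hMm ℤ).1 _ _ fd.c0 (Finset.prod_ne_zero_iff.mpr fun i _ => hx i)] at h3
  have h5 := (hMm ℤ).2.1 c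
  nlinarith

theorem ev_split (q f : ℤ[X]) (k : ℕ) (x : ℝ) :
    (aeval x (q + X ^ k * f) : ℝ) = aeval x q + x ^ k * aeval x f := by
  rw [map_add, map_mul, map_pow, aeval_X]

end

/-- (KE) K EVEN. -/
theorem kev (hU : UnitRS) (hM1 : M1S) (hMm : MmulS) (hMV : MVS) (hE1 : E1S) (hE2 : E2S)
    (hPc : PCZS) (hClp : ClpS) (hC0 : Coeff0S) (hG0 : G0S) (hI1 : Inj1S) (hRk : RkS)
    (hFD : FDS) (hWW : WWfS) (hRF : RayFacS) (hMug : MugS) (hMco : McoS) (hSll : SllS)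
    (hCu : CuspS) (hSf : SfzS) (hTr : TrezS) (hEvz : EvzS) (hSw : SewS) (hWu : WuS) (hWe : WeS)
    (hCe : CeS) (hTsb : TsbS) (hTsa : TsaS) : KevS := by
  classical
  intro P L _ _ _ _ _ phi D q a j fp h0 hq ha2 hj hfr hIH
  by_contra hcon
  push Not at hcon
  have hwin : a⁻¹ - a < j := hcon
  have hD := fp.dd
  have h2 : 2 ≤ Module.finrank ℤ L := by omega
  have h4 : 4 ≤ Module.finrank ℤ L := by omega
  have hIH1 : Bnk (2 * j - 1) := hIH _ (by omega)
  have hex : ∀ S : L, ∃ (f : ℤ[X]) (e : (RO ℤ)ˣ), Ray D S → RN D S q f e a := by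
    intro S
    by_cases hS : Ray D S
    · obtain ⟨f, e, h⟩ := ray_norm hE2 hD h2 h0 hq hS
      exact ⟨f, e, fun _ => h⟩
    · exact ⟨0, 1, fun h => absurd h hS⟩
  choose F e hRN using hex
  -- the ray
  obtain ⟨S, hS, hcase⟩ := hSll ℤ P L phi D Unit (fun S _ => ld (e S) 1) hD h2
    (fun S hS _ => V0_ne (hRN S hS) (k := 1) (le_refl 1))
  have hR := hRN S hS
  obtain ⟨i0, h⟩ := exists_port hD hS
  obtain ⟨f, hf⟩ : ∃ f, f = F S := ⟨_, rfl⟩
  obtain ⟨e0, he0⟩ : ∃ e0, e0 = e S := ⟨_, rfl⟩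
  rw [← hf, ← he0] at hR
  have hfd : ∀ k : ℕ, 1 ≤ k → ∃ (c : RO ℤ) (n : ℕ) (G : Fin n → AO ℤ (Ker (co phi i0))),
      FD phi D S i0 (ld e0 k) h c n G := by
    intro k hk
    exact hFD ℤ P L phi D S i0 (ld e0 k) h ⟨hD, h2, hS, h, V0_ne hR hk⟩
  -- the load C, drop free
  have hC : Module.finrank ℤ L = rk (supp (cl (co phi i0) S h (ld e0 2) D)) + 1 →
      f.coeff 0 = 1 ∧ f.coeff 1 - q.coeff 1 ≤ j ∧ a < 1 / j := by
    intro hdr
    obtain ⟨c, n, G, fd⟩ := hfd 2 (by norm_num)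
    obtain ⟨hs, -⟩ := sf_kill hSf (k := 2) hR (by norm_num) (by norm_num) fp fd hj hfr ha2 hwin hIH
      (Or.inl hdr)
    obtain ⟨h5, h5', h6⟩ := neg_of hPc hE1 hMV hMm hClp (k := 2) hR (by norm_num) fp fd hs hdr hj
      hfr hIH1
    rw [ev_split] at h6
    obtain ⟨h7, h8⟩ := hCe q f a j hR.loc hR.u hj h5 hwin h6
    exact ⟨h7, h8, h5'⟩
  rcases hcase with hdr0 | ⟨-, g, hg, hDg, -, -, hoth, ⟨S1, -, hM⟩, -, -⟩
  · -- the load B has no drop
    have hdr : Module.finrank ℤ L = rk (supp (cl (co phi i0) S h (ld e0 1) D)) + 1 := by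
      have := (hdr0 ()).2 i0 h
      rw [← he0, add_zero] at this
      exact this
    obtain ⟨c, n, G, fd⟩ := hfd 1 (le_refl 1)
    have fd' : FD phi D S i0 (ld e0 1) h c n G := fd
    rcases eq_or_lt_of_le hR.u with hu | hu
    · -- `u = 1`
      obtain ⟨hs, -⟩ := sf_kill hSf (k := 1) hR (le_refl 1) (fun _ => hu.symm) fp fd hj hfr ha2
        hwin hIH (Or.inl hdr)
      obtain ⟨h5, -, h6⟩ := neg_of hPc hE1 hMV hMm hClp (k := 1) hR (le_refl 1) fp fd hs hdr hj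
        hfr hIH1
      rw [ev_split, pow_one] at h6
      obtain ⟨E, -, hE0, hE1', -⟩ := typa hR.loc hu.symm hR.ne
      have h7 := hWe q f a j hR.loc hu.symm hj h5 hwin (by rw [← hE0]; exact hE1') h6
      exact n_ne_one hTr hD hS hR hu.symm hfr hj ha2 hwin h7
    · -- `u ≥ 2`
      by_cases hs : snp phi S i0 G = ∅
      · obtain ⟨h5, -, h6⟩ := neg_of hPc hE1 hMV hMm hClp (k := 1) hR (le_refl 1) fp fd hs hdr hj
          hfr hIH1
        rw [ev_split, pow_one] at h6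
        exact hWu q f a j hR.loc (by omega) hj h5 hwin h6
      · have hdr2 := hTsb P L phi D S i0 h c n G q f e0 a fp h4 hS hR (by omega) fd' hdr
          (Finset.nonempty_iff_ne_empty.mpr hs)
        have := (hC hdr2).1
        omega
  · -- a drop at the load B
    rw [← he0] at hDg hoth hM
    have hne2 : ld e0 2 ≠ ld e0 1 := by
      intro h5
      have h6 := congrArg (fun x : (RO ℤ)ˣ => (x : RO ℤ)) h5
      simp only [ld_val] at h6
      have h7 := mul_right_cancel₀ e0.ne_zero h6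
      have h8 := congrArg (fun p : RO ℤ => p.coeff 1) h7
      simp only [LaurentPolynomial.T_apply] at h8
      norm_num at h8
    have hneA : -e0 ≠ ld e0 1 := by
      intro h5
      have h6 := kap_ld e0
      rw [h5] at h6
      exact kap_ne (mul_eq_right.mp h6)
    have hdr2 : Module.finrank ℤ L = rk (supp (cl (co phi i0) S h (ld e0 2) D)) + 1 := by
      have := (hoth (ld e0 2) hne2).2 i0 h
      rw [add_zero] at this
      exact this
    obtain ⟨hu, hnj, haj⟩ := hC hdr2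
    obtain ⟨c, n, G, fd⟩ := hfd 1 (le_refl 1)
    obtain ⟨-, hbig⟩ := sf_kill hSf (k := 1) hR (le_refl 1) (fun _ => hu) fp fd hj hfr ha2 hwin
      hIH (Or.inr ⟨S1, _, hM⟩)
    have hzero := zero_B hMV hMm hR fd hbig
    obtain ⟨E, hE, hE0, hEpos, hEz⟩ := typa hR.loc hu hR.ne
    have hn1 := n_ne_one hTr hD hS hR hu hfr hj ha2 hwin
    have hn2 : 2 ≤ f.coeff 1 - q.coeff 1 := by omega
    -- the closing A
    obtain ⟨Y⟩ := (hMco ℤ P L phi D S S1 (ld e0 1) _ hD.inj hD.bin hM).2.2.2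
    have hdrA : Module.finrank ℤ L = rk (supp (cl (co phi Y.i0) S Y.h0 (-e0) D)) + 1 := by
      have := (hoth (-e0) hneA).2 Y.i0 Y.h0
      rw [add_zero] at this
      exact this
    have hsn : ∀ (c : RO ℤ) (n : ℕ) (G : Fin n → AO ℤ (Ker (co phi Y.i0))),
        FD phi D S Y.i0 (-e0) Y.h0 c n G → snp phi S Y.i0 G = ∅ := by
      intro c n G fd
      by_contra hs
      have h5 := hTsa P L phi D S Y.i0 Y.h0 c n G q f e0 a fp h4 hS hR hu hn2 fd hdrA
        (Finset.nonempty_iff_ne_empty.mpr hs)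
      have h6 := hDg.2 Y.i0 Y.h0
      omega
    obtain ⟨nu, hnu⟩ : ∃ nu : ℕ, (nu : ℤ) = f.coeff 1 - q.coeff 1 :=
      ⟨(f.coeff 1 - q.coeff 1).toNat, by omega⟩
    obtain ⟨cA, GA, hcA, hclA, hDA, hVA, hrayA, hco0, ⟨w, hw⟩, -, -⟩ :=
      fa1 hWW hRF hMug hMco hClp hE1 hC0 hG0 hI1 hMV hRk hFD P L phi D S S1 q f e0 _ a nu Y fp h2
        hR hu hnu hM hdrA hsn
    have hker := finrank_ker hRk Y.h0
    have hnuj : nu = j := by
      have h5 := hEvz nu (by omega) P _ (phO phi S Y.i0) GA hDA hVA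
      have h6 : Module.finrank ℤ (Ker (co phi Y.i0)) ≤ 2 * nu := by exact_mod_cast h5
      omega
    rw [hnuj] at hVA hnu
    have hfin := end_A hU hM1 hMm hMV hE2 hSw (w := (w : RO ℤ)) hR.loc hu hj haj hDA (by omega) hVA
      hcA hrayA w.isUnit hE (by rw [hE0, ← hnu]) hEz hco0 hw
      (cusp_m1 hCu hD h2 hR hM hzero (by rw [norm_neg, norm_one]))
    linarith

end Pool.Agent.B5.KE
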