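import Pool.Agent.Lib.MP_b5021c_nt.KE.H96.Ray
import Pool.Agent.Lib.MP_b5021c_nt.IfaceE6
import Pool.Agent.Lib.MP_b5021c_nt.K.H29.Fdc

/-!
# MP_b5021c_nt, all `θ`, K even: the load A has one factor (the mutual partner is a ray)
-/

namespace Pool.Agent.B5.KE

open scoped LaurentPolynomial
open Polynomial
open Pool.Agent.B5.Nr.Sch
open Pool.Agent.B5.H40 (uT)

theorem uniq' {L : Type} [AddCommGroup L] (G H : AO ℤ L) (x y : L)
    (h : ∀ a ∈ supp G, ∀ b ∈ supp H, a + b = x + y → a = x ∧ b = y) :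
    (G * H).coeff (x + y) = G.coeff x * H.coeff y := by
  apply AddMonoidAlgebra.coeff_mul_add_of_uniqueAdd
  intro a b ha hb hab
  exact h a (Finsupp.mem_support_iff.mp ha) b (Finsupp.mem_support_iff.mp hb) hab

/-- The coefficients of a product with binary exponents: an exponent of one factor. -/
theorem coef_split (hW : WWfS) {P L : Type} [Fintype P] [DecidableEq P] [AddCommGroup L]
    [Module.Free ℤ L] [Module.Finite ℤ L] {psi : L →+ (P → ℤ)} (hinj : Function.Injective psi)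
    {G H : AO ℤ L} (hb : ∀ a ∈ supp (G * H), Bin psi a) (hG : G.coeff 0 ≠ 0) (hH : H.coeff 0 ≠ 0)
    {b : L} (hbG : b ∈ supp G) : (G * H).coeff b = G.coeff b * H.coeff 0 := by
  have hww : ∀ a ∈ supp (G * H), WW psi ∅ Finset.univ a := by
    intro a ha
    refine ⟨fun j _ => hb a ha j, Or.inl fun i hi => absurd hi (Finset.notMem_empty i), ?_⟩
    intro j _ hj
    exact absurd (Finset.mem_univ j) hj
  obtain ⟨h1, h2⟩ := hW ℤ P L psi ∅ Finset.univ G H hww hG hH
  have h3 := (hW ℤ P L psi ∅ Finset.univ H G (by rw [mul_comm]; exact hww) hH hG).1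
  have h4 := uniq' G H b 0 (by
    intro x hx y hy hxy
    rw [add_zero] at hxy
    have h5 : psi y = psi 0 := by
      rw [map_zero]
      funext j
      change psi y j = 0
      rcases h2 j (Finset.mem_univ j) with h6 | h6
      · have h7 := congrArg (fun v : L => psi v j) hxy
        simp only [map_add, Pi.add_apply] at h7
        rw [h6 x hx, h6 b hbG, zero_add] at h7
        exact h7
      · exact h6 y hy
    have h6 := hinj h5
    rw [h6, add_zero] at hxy
    exact ⟨hxy, h6⟩)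
  rw [add_zero] at h4
  exact h4

/-- A factor of a polynomial with constant term one. -/
theorem low_dvd {p g : ℤ[X]} {x : RO ℤ} {n : ℤ} (hp : p.coeff 0 = 1) (hg : g.coeff 0 ≠ 0)
    (h : (toLaurent p : RO ℤ) = x * (LaurentPolynomial.T n * toLaurent g)) :
    IsUnit (g.coeff 0) := by
  have hx : x ≠ 0 := by
    intro h0
    rw [h0, zero_mul] at h
    rw [toLaurent_eq_zero.mp h, coeff_zero] at hp
    exact zero_ne_one hp
  obtain ⟨m, x', hx', hx0⟩ := H40.exists_normal x hx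
  have h1 : (LaurentPolynomial.T 0 : RO ℤ) * toLaurent p =
      LaurentPolynomial.T (m + n) * toLaurent (x' * g) := by
    rw [LaurentPolynomial.T_zero, one_mul, h, hx', map_mul, LaurentPolynomial.T_add]
    ring
  obtain ⟨-, h2⟩ := H56.nf_unique 0 (m + n) p (x' * g) (by rw [hp]; exact one_ne_zero)
    (by rw [mul_coeff_zero]; exact mul_ne_zero hx0 hg) h1
  rw [h2, mul_coeff_zero] at hp
  exact IsUnit.of_mul_eq_one_right _ hp

/-- `-T⁻¹`. -/
noncomputable def kap : (RO ℤ)ˣ := uT (-1 : ℤˣ) (-1)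

theorem kap_val : ((kap : (RO ℤ)ˣ) : RO ℤ) = -LaurentPolynomial.T (-1) := by
  unfold kap
  rw [H40.uT_val]
  simp

theorem kap_ld (e : (RO ℤ)ˣ) : kap * ld e 1 = -e := by
  apply Units.ext
  rw [Units.val_mul, kap_val, ld_val, Units.val_neg, neg_mul, ← mul_assoc,
    ← LaurentPolynomial.T_add, neg_add_cancel, LaurentPolynomial.T_zero, one_mul]

theorem kap_ne : kap ≠ 1 := by
  intro h
  have h1 : ((kap : (RO ℤ)ˣ) : RO ℤ) = 1 := by rw [h, Units.val_one]
  rw [kap_val] at h1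
  have h2 := congrArg (fun p : RO ℤ => p.coeff 0) h1
  simp only [AddMonoidAlgebra.coeff_neg, Finsupp.neg_apply] at h2
  have h3 : (LaurentPolynomial.T (-1) : RO ℤ).coeff 0 = 0 := by
    rw [LaurentPolynomial.T_apply, if_neg (by norm_num)]
  have h4 : (1 : RO ℤ).coeff 0 = 1 := by
    rw [← LaurentPolynomial.T_zero, LaurentPolynomial.T_apply, if_pos rfl]
  rw [h3, h4] at h2
  norm_num at h2

theorem ray_congr {K : Type} [Semiring K] {L : Type} [AddCommGroup L]
    {G H : AddMonoidAlgebra K L} (h : supp G = supp H) {b : L} (hb : Ray G b) : Ray H b := by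
  obtain ⟨h1, h2, lam, h3, h4⟩ := hb
  rw [h] at h1 h4
  exact ⟨h1, h2, lam, h3, h4⟩

section

variable {P L : Type} [Fintype P] [DecidableEq P] [AddCommGroup L] [Module.Free ℤ L]
  [Module.Finite ℤ L] {phi : L →+ (P → ℤ)} {D : AO ℤ L}

/-- ONE FACTOR at the load A. -/
theorem one_A (hWW : WWfS) (hRF : RayFacS) (hMug : MugS) (hMco : McoS) (hClp : ClpS)
    (hE1 : E1S) (hC0 : Coeff0S) (hG0 : G0S) (hI1 : Inj1S) (fp : FP phi D) {S0 S1 : L}
    {q f : ℤ[X]} {e e1 : (RO ℤ)ˣ} {a : ℝ} (hR : RN D S0 q f e a) (hu : f.coeff 0 = 1)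
    (hM : Mut D S0 S1 (ld e 1) e1) {i0 : P} (h : co phi i0 S0 = 1) {c : RO ℤ} {n : ℕ}
    {G : Fin n → AO ℤ (Ker (co phi i0))} (fd : FD phi D S0 i0 (-e) h c n G)
    (hs : snp phi S0 i0 G = ∅) (hMV : MVS) :
    ∃ (l : Fin n) (b : Ker (co phi i0)), (∀ i, i = l) ∧ Ray (G l) b ∧
      (e1 : RO ℤ) * (c * (G l).coeff b) = toLaurent ((1 + X) * f) ∧
      c * (G l).coeff 0 = toLaurent (q - f) := by
  classical
  have hD := fp.dd
  obtain ⟨hdis, hcoef, -, -⟩ := hMco ℤ P L phi D S0 S1 (ld e 1) e1 hD.inj hD.bin hM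
  have hS1 : co phi i0 S1 = 0 := by
    rcases hdis i0 with h1 | h1
    · change phi S0 i0 = 1 at h
      rw [h1] at h
      exact absurd h zero_ne_one
    · exact h1
  obtain ⟨b, hb⟩ : ∃ b : Ker (co phi i0), (b : L) = S1 := ⟨⟨S1, hS1⟩, rfl⟩
  have hcl : cl (co phi i0) S0 h (kap * ld e 1) D = cst c * ∏ i, G i := by
    rw [kap_ld]
    exact fd.eq
  have hVne : D.coeff 0 + ((kap * ld e 1 : (RO ℤ)ˣ) : RO ℤ) * D.coeff S0 ≠ 0 := by
    rw [kap_ld]
    exact V0_ne_A hR
  obtain ⟨hray, hco0, hco1, -, -, -, -⟩ := hMug ℤ P L phi D S0 S1 (ld e 1) e1 kap i0 h b c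
    (∏ i, G i) fp hM.r0 hM.r1 hM.m0 hM.m1 hb kap_ne hVne hcl
  rw [kap_ld, V0_A hR] at hco0
  have hco1' : (e1 : RO ℤ) * (c * (∏ i, G i).coeff b) = toLaurent ((1 + X) * f) := by
    have h1 := ld_S hR 1
    rw [pow_one] at h1
    have h1' : ((ld e 1 : (RO ℤ)ˣ) : RO ℤ) * D.coeff S0 = toLaurent (X * f) := h1
    rw [hco1, h1', kap_val, sub_neg_eq_add, map_mul, map_mul, map_add, map_one, toLaurent_X]
    have h2 : (LaurentPolynomial.T (-1) : RO ℤ) * LaurentPolynomial.T 1 = 1 := by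
      rw [← LaurentPolynomial.T_add, neg_add_cancel, LaurentPolynomial.T_zero]
    calc (1 + LaurentPolynomial.T (-1)) * (LaurentPolynomial.T 1 * toLaurent f)
        = (LaurentPolynomial.T 1 + LaurentPolynomial.T (-1) * LaurentPolynomial.T 1) *
          toLaurent f := by ring
      _ = _ := by rw [h2]; ring
  -- a factor with the exponent `b`
  have hsup : supp (cl (co phi i0) S0 h (-e) D) = supp (∏ i, G i) := by
    rw [fd.eq, H56.supp_cst_mul fd.c0]
  have hrayV : Ray (cl (co phi i0) S0 h (-e) D) b := ray_congr hsup.symm hray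
  obtain ⟨l, hl⟩ := hRF ℤ P L phi D S0 i0 (-e) h c n G fd b hrayV
  -- positivity
  obtain ⟨hst, -, -, -, -, -⟩ := hG0 ℤ P L phi D S0 i0 (-e) h fd.cc
  obtain ⟨hV0, lam, hpos, -⟩ := id hst
  have hGpos : ∀ i, Pos lam (G i) := fun i => (fd.full i lam hpos).2.1
  have hGz : ∀ i, (G i).coeff 0 ≠ 0 := fun i => (fd.st i).1
  have hsplit : ∏ i, G i = G l * ∏ i ∈ Finset.univ.erase l, G i :=
    (Finset.mul_prod_erase Finset.univ G (Finset.mem_univ l)).symm
  obtain ⟨hH0, -⟩ := H29.prod_coeff_zero hC0 G lam hGpos (Finset.univ.erase l)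
  have hcoefb : (∏ i, G i).coeff b = (G l).coeff b * ∏ i ∈ Finset.univ.erase l, (G i).coeff 0 := by
    rw [hsplit, ← hH0]
    apply coef_split hWW (psi := phO phi S0 i0) ((hI1 ℤ P L phi D fp S0 hM.r0).2 i0 h)
    · intro a ha
      rw [← hsplit, ← hsup] at ha
      exact (hClp ℤ P L phi D S0 i0 (-e) h c n G fp fd).1 a ha
    · exact hGz l
    · rw [hH0]
      exact Finset.prod_ne_zero_iff.mpr fun i _ => hGz i
    · exact hl
  -- there is no other factor
  have hone : ∀ i, i = l := by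
    intro i
    by_contra hi
    have hbig := all_big hClp fp fd hs i
    obtain ⟨E, hE, -, hE2, hE3⟩ := typa hR.loc hu hR.ne
    have hcV : ClassV (E.coeff 0 : ℝ) (toLaurent (q - f) : RO ℤ) := by
      refine ⟨by exact_mod_cast hE2, 1, -E, ?_, ?_, ?_⟩
      · have h1 : q - f = X * -E := by rw [mul_neg, ← hE]; ring
        rw [h1, map_mul, toLaurent_X]
      · rw [coeff_neg, map_neg, norm_neg]
        change ‖((E.coeff 0 : ℤ) : ℂ)‖ = _
        rw [Complex.norm_intCast, abs_of_pos]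
        exact_mod_cast hE2
      · intro z hz
        rw [ev_map, map_neg]
        exact neg_ne_zero.mpr (hE3 z hz)
    have hi' : i ∈ Finset.univ.erase l := Finset.mem_erase.mpr ⟨hi, Finset.mem_univ i⟩
    have h1 : (toLaurent (q - f) : RO ℤ) = (G i).coeff 0 *
        (c * ∏ k ∈ Finset.univ.erase i, (G k).coeff 0) := by
      have h2 := fd.v00
      rw [V0_A hR] at h2
      rw [h2, ← Finset.mul_prod_erase Finset.univ (fun k => (G k).coeff 0) (Finset.mem_univ i)]
      ring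
    rw [h1] at hcV
    obtain ⟨N1, N2, hN1, -, -⟩ := (hE1 ℤ).1 _ _ _ hcV
    obtain ⟨-, m, g, hg, hg0, -⟩ := id hN1
    have hMN := ((hMV ℤ).1 _ _ hN1).2
    rw [hMN] at hbig
    have hg00 : g.coeff 0 ≠ 0 := by
      intro h0
      rw [h0, map_zero, norm_zero] at hg0
      linarith
    have h3 : (toLaurent ((1 + X) * f) : RO ℤ) =
        ((e1 : RO ℤ) * c * (G l).coeff b *
          ∏ k ∈ (Finset.univ.erase l).erase i, (G k).coeff 0) *
          (LaurentPolynomial.T m * toLaurent g) := by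
      rw [← hg, ← hco1', hcoefb, ← Finset.mul_prod_erase (Finset.univ.erase l)
        (fun k => (G k).coeff 0) hi']
      ring
    have hp0 : ((1 + X) * f).coeff 0 = 1 := by
      rw [mul_coeff_zero, hu]
      simp
    have h4 := low_dvd hp0 hg00 h3
    rw [Int.isUnit_iff] at h4
    have h5 : ‖(Coef.emb (g.coeff 0) : ℂ)‖ = 1 := by
      change ‖((g.coeff 0 : ℤ) : ℂ)‖ = 1
      rw [Complex.norm_intCast]
      rcases h4 with h4 | h4 <;> rw [h4] <;> simp
    rw [h5] at hg0
    linarith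
  have hprod : ∏ i, G i = G l := by
    rw [Finset.prod_eq_single l]
    · intro i _ hi
      exact absurd (hone i) hi
    · intro hi
      exact absurd (Finset.mem_univ l) hi
  rw [hprod] at hray hco0 hco1'
  exact ⟨l, b, hone, hray, hco1', hco0⟩

end

end Pool.Agent.B5.KE
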