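import Pool.Agent.Lib.MP_b5021c_nt.KE.H96.Mid

/-!
# MP_b5021c_nt, all `θ`, row FA1: the closing A at a mutual pair of loads B
-/

namespace Pool.Agent.B5.KE

open scoped LaurentPolynomial
open Polynomial
open Pool.Agent.B5.Nr.Sch

/-- The kernel has codimension one. -/
theorem finrank_ker (hRk : RkS) {P L : Type} [Fintype P] [DecidableEq P] [AddCommGroup L]
    [Module.Free ℤ L] [Module.Finite ℤ L] {phi : L →+ (P → ℤ)} {S : L} {i0 : P}
    (h : co phi i0 S = 1) : Module.finrank ℤ (Ker (co phi i0)) + 1 = Module.finrank ℤ L := by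
  apply (hRk L L).1
  intro h0
  rw [h0] at h
  exact absurd h (by simp)

/-- One factor and no drop: the factor is an element of `DD` on the kernel. -/
theorem dd_full (hRk : RkS) (hClp : ClpS) (hI1 : Inj1S) {P L : Type} [Fintype P] [DecidableEq P]
    [AddCommGroup L] [Module.Free ℤ L] [Module.Finite ℤ L] {phi : L →+ (P → ℤ)} {D : AO ℤ L}
    {S : L} {i0 : P} {eta : (RO ℤ)ˣ} {h : co phi i0 S = 1} {c : RO ℤ} {n : ℕ}
    {G : Fin n → AO ℤ (Ker (co phi i0))} (fp : FP phi D) (fd : FD phi D S i0 eta h c n G)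
    (hdr : Module.finrank ℤ L = rk (supp (cl (co phi i0) S h eta D)) + 1) {l : Fin n}
    (hl : ∀ i, i = l) :
    cl (co phi i0) S h eta D = cst c * G l ∧ DD (phO phi S i0) (G l) := by
  have hprod : ∏ i, G i = G l := by
    rw [Finset.prod_eq_single l]
    · intro i _ hi
      exact absurd (hl i) hi
    · intro hi
      exact absurd (Finset.mem_univ l) hi
  have h1 : cl (co phi i0) S h eta D = cst c * G l := by rw [fd.eq, hprod]
  have h2 : supp (cl (co phi i0) S h eta D) = supp (G l) := by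
    rw [h1, H56.supp_cst_mul fd.c0]
  refine ⟨h1, (hI1 ℤ P L phi D fp S fd.cc.ray).2 i0 h, ?_, fd.st l, fd.un l, fd.irr l, ?_⟩
  · intro a ha
    rw [← h2] at ha
    exact (hClp ℤ P L phi D S i0 eta h c n G fp fd).1 a ha
  · rw [← h2]
    have h3 := finrank_ker hRk h
    omega

/-- (FA1) -/
theorem fa1 (hWW : WWfS) (hRF : RayFacS) (hMug : MugS) (hMco : McoS) (hClp : ClpS)
    (hE1 : E1S) (hC0 : Coeff0S) (hG0 : G0S) (hI1 : Inj1S) (hMV : MVS) (hRk : RkS) (hFD : FDS) :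
    FA1S := by
  intro P L _ _ _ _ _ phi D S0 S1 q f e e1 a nu Y fp h2 hR hu hnu hM hdr hsn
  have hD := fp.dd
  have cc : CC phi D S0 Y.i0 (-e) := ⟨hD, h2, hM.r0, Y.h0, V0_ne_A hR⟩
  obtain ⟨c, n, G, fd⟩ := hFD ℤ P L phi D S0 Y.i0 (-e) Y.h0 cc
  have hs := hsn c n G fd
  obtain ⟨l, b, hl, -, -, hco0⟩ := one_A hWW hRF hMug hMco hClp hE1 hC0 hG0 hI1 fp hR hu hM Y.h0
    fd hs hMV
  obtain ⟨hcl, hdd⟩ := dd_full hRk hClp hI1 fp fd hdr hl
  have hcl' : cl (co phi Y.i0) S0 Y.h0 (kap * ld e 1) D = cst c * G l := by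
    rw [kap_ld]
    exact hcl
  have hVne : D.coeff 0 + ((kap * ld e 1 : (RO ℤ)ˣ) : RO ℤ) * D.coeff S0 ≠ 0 := by
    rw [kap_ld]
    exact V0_ne_A hR
  obtain ⟨hray, -, hco1, -, -, hIm, -⟩ := hMug ℤ P L phi D S0 S1 (ld e 1) e1 kap Y.i0 Y.h0 Y.T c
    (G l) fp hM.r0 hM.r1 hM.m0 hM.m1 Y.eT kap_ne hVne hcl'
  have hco1' : (e1 : RO ℤ) * (c * (G l).coeff Y.T) = toLaurent ((1 + X) * f) := by
    have h1 := ld_S hR 1
    rw [pow_one] at h1
    have h1' : ((ld e 1 : (RO ℤ)ˣ) : RO ℤ) * D.coeff S0 = toLaurent (X * f) := h1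
    rw [hco1, h1', kap_val, sub_neg_eq_add, map_mul, map_mul, map_add, map_one, toLaurent_X]
    have h2 : (LaurentPolynomial.T (-1) : RO ℤ) * LaurentPolynomial.T 1 = 1 := by
      rw [← LaurentPolynomial.T_add, neg_add_cancel, LaurentPolynomial.T_zero]
    calc (1 + LaurentPolynomial.T (-1)) * (LaurentPolynomial.T 1 * toLaurent f)
        = (LaurentPolynomial.T 1 + LaurentPolynomial.T (-1) * LaurentPolynomial.T 1) *
          toLaurent f := by ring
      _ = _ := by rw [h2]; ring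
  obtain ⟨hdis, -, -, -⟩ := hMco ℤ P L phi D S0 S1 (ld e 1) e1 hD.inj hD.bin hM
  -- classes
  obtain ⟨E, hE, hE0, hE2, hE3⟩ := typa hR.loc hu hR.ne
  have hnu' : ((nu : ℕ) : ℝ) = (E.coeff 0 : ℝ) := by
    rw [hE0, ← hnu]
    push_cast
    ring
  have hcV : ClassV (nu : ℝ) (c * (G l).coeff 0) := by
    rw [hco0, hnu']
    refine ⟨by exact_mod_cast hE2, 1, -E, ?_, ?_, ?_⟩
    · have h1 : q - f = X * -E := by rw [mul_neg, ← hE]; ring
      rw [h1, map_mul, toLaurent_X]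
    · rw [coeff_neg, map_neg, norm_neg]
      change ‖((E.coeff 0 : ℤ) : ℂ)‖ = _
      rw [Complex.norm_intCast, abs_of_pos]
      exact_mod_cast hE2
    · intro z hz
      rw [ev_map, map_neg]
      exact neg_ne_zero.mpr (hE3 z hz)
  obtain ⟨N1, N2, hN1, hN2, hNN⟩ := (hE1 ℤ).1 _ _ _ hcV
  have hN1' : N1 = 1 := by
    obtain ⟨h1, m, g, hg, hg0, -⟩ := id hN1
    have hg00 : g.coeff 0 ≠ 0 := by
      intro h0
      rw [h0, map_zero, norm_zero] at hg0
      linarith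
    have h3 : (toLaurent ((1 + X) * f) : RO ℤ) =
        ((e1 : RO ℤ) * (G l).coeff Y.T) * (LaurentPolynomial.T m * toLaurent g) := by
      rw [← hg, ← hco1']
      ring
    have hp0 : ((1 + X) * f).coeff 0 = 1 := by
      rw [mul_coeff_zero, hu]
      simp
    have h4 := low_dvd hp0 hg00 h3
    rw [Int.isUnit_iff] at h4
    rw [← hg0]
    change ‖((g.coeff 0 : ℤ) : ℂ)‖ = 1
    rw [Complex.norm_intCast]
    rcases h4 with h4 | h4 <;> rw [h4] <;> simp
  rw [hN1'] at hN1 hNN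
  rw [one_mul] at hNN
  rw [← hNN] at hN2
  refine ⟨c, G l, hN1, hcl, hdd, hN2, hray, hco0, ⟨e1, hco1'⟩, hIm, ?_⟩
  apply AddMonoidHom.ext
  intro x
  have h5 : phi S1 Y.i1 = 1 := by
    have h6 := Y.h1
    rw [Y.hk, Y.eT] at h6
    exact h6
  have h7 : phi S0 Y.i1 = 0 := by
    rcases hdis Y.i1 with h8 | h8
    · exact h8
    · rw [h5] at h8
      exact absurd h8 one_ne_zero
  rw [Y.hk]
  change (if phi S0 Y.i1 = 0 then phi (x : L) Y.i1 else 0) = phi (x : L) Y.i1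
  rw [if_pos h7]

end Pool.Agent.B5.KE
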