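import Pool.Agent.Lib.MP_b5021c_nt.B.H40.LoadBase
import Pool.Agent.Lib.MP_b5021c_nt.E.H61.FacetDraft

/-!
# MP_b5021c_nt, all `θ`: the substitution `z ↦ -z`
-/

namespace Pool.Agent.B5.KE

open scoped LaurentPolynomial
open Polynomial
open Pool.Agent.B5.H40 (uT)

theorem hom_eq {S : Type} [CommRing S] (φ ψ : RO ℤ →+* S)
    (h2 : ∀ n : ℤ, φ (LaurentPolynomial.T n) = ψ (LaurentPolynomial.T n)) (p : RO ℤ) :
    φ p = ψ p := by
  induction p using LaurentPolynomial.induction_on' with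
  | add p q hp hq => rw [map_add, map_add, hp, hq]
  | C_mul_T n a =>
    rw [map_mul, map_mul, h2]
    congr 1
    have : (φ.comp (LaurentPolynomial.C : ℤ →+* RO ℤ)) = ψ.comp LaurentPolynomial.C :=
      RingHom.ext_int _ _
    exact congrArg (fun F : ℤ →+* S => F a) this

theorem uT_mul (u v : ℤˣ) (k l : ℤ) : (uT u k : (RO ℤ)ˣ) * uT v l = uT (u * v) (k + l) := by
  apply Units.ext
  rw [Units.val_mul, H40.uT_val, H40.uT_val, H40.uT_val, Units.val_mul, map_mul,
    LaurentPolynomial.T_add]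
  ring

theorem uT_one : (uT (1 : ℤˣ) 0 : (RO ℤ)ˣ) = 1 := by
  apply Units.ext
  rw [H40.uT_val, Units.val_one, map_one, LaurentPolynomial.T_zero, one_mul, Units.val_one]

theorem uT_inv (u : ℤˣ) (k : ℤ) : (uT u k : (RO ℤ)ˣ)⁻¹ = uT u⁻¹ (-k) := by
  rw [inv_eq_iff_mul_eq_one, uT_mul, mul_inv_cancel, add_neg_cancel, uT_one]

theorem uT_zpow (u : ℤˣ) (n : ℤ) : (uT u 1 : (RO ℤ)ˣ) ^ n = uT (u ^ n) n := by
  induction n using Int.induction_on with
  | zero => rw [zpow_zero, zpow_zero, uT_one]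
  | succ i ih => rw [zpow_add_one, ih, uT_mul, zpow_add_one]
  | pred i ih =>
    rw [zpow_sub_one, ih, uT_inv, uT_mul, zpow_sub_one]
    rfl

/-- `z ↦ -z` on Laurent polynomials. -/
noncomputable def fz : RO ℤ →+* RO ℤ :=
  LaurentPolynomial.eval₂ (LaurentPolynomial.C : ℤ →+* RO ℤ) (uT (-1 : ℤˣ) 1)

theorem fz_T (n : ℤ) : fz (LaurentPolynomial.T n) =
    LaurentPolynomial.C ((((-1 : ℤˣ) ^ n : ℤˣ) : ℤ)) * LaurentPolynomial.T n := by
  unfold fz
  rw [LaurentPolynomial.eval₂_T, uT_zpow, H40.uT_val]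

theorem fz_C (a : ℤ) : fz (LaurentPolynomial.C a) = LaurentPolynomial.C a := by
  unfold fz
  rw [LaurentPolynomial.eval₂_C]

theorem fz_fz (p : RO ℤ) : fz (fz p) = p := by
  have h := hom_eq (fz.comp fz) (RingHom.id _) (fun n => by
    rw [RingHom.comp_apply, fz_T, map_mul, fz_C, fz_T, RingHom.id_apply, ← mul_assoc, ← map_mul]
    have : (((-1 : ℤˣ) ^ n : ℤˣ) : ℤ) * (((-1 : ℤˣ) ^ n : ℤˣ) : ℤ) = 1 := by
      rw [← Units.val_mul, Int.units_mul_self, Units.val_one]
    rw [this, map_one, one_mul]) p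
  exact h

theorem fz_inj : Function.Injective fz := fun p q h => by
  have := congrArg fz h
  rwa [fz_fz, fz_fz] at this

theorem fz_toLaurent (p : ℤ[X]) : fz (toLaurent p) = toLaurent (p.comp (-X)) := by
  have h : fz.comp (toLaurent : ℤ[X] →+* RO ℤ) =
      (toLaurent : ℤ[X] →+* RO ℤ).comp (compRingHom (-X)) := by
    apply Polynomial.ringHom_ext'
    · exact RingHom.ext_int _ _
    · rw [RingHom.comp_apply, toLaurent_X, fz_T, RingHom.comp_apply]
      simp
  exact congrArg (fun F : ℤ[X] →+* RO ℤ => F p) h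

theorem fz_invert (p : RO ℤ) :
    fz (LaurentPolynomial.invert p) = LaurentPolynomial.invert (fz p) := by
  have h := hom_eq (fz.comp (LaurentPolynomial.invert (R := ℤ)).toRingEquiv.toRingHom)
    ((LaurentPolynomial.invert (R := ℤ)).toRingEquiv.toRingHom.comp fz) (fun n => by
      change fz (LaurentPolynomial.invert (LaurentPolynomial.T n)) =
        LaurentPolynomial.invert (fz (LaurentPolynomial.T n))
      rw [LaurentPolynomial.invert_T, fz_T, fz_T, map_mul, LaurentPolynomial.invert_T,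
        LaurentPolynomial.invert_C, zpow_neg, Int.units_inv_eq_self]) p
  exact h

theorem fz_rsh (p : RO ℤ) : rsh (fz p) = fz (rsh p) := by
  rw [rsh_int, rsh_int, fz_invert]

/-- `-z` on the circle. -/
def mz (z : Circle) : Circle := ⟨-(z : ℂ), mem_sphere_zero_iff_norm.mpr (by
  rw [norm_neg, Circle.norm_coe])⟩

theorem mz_coe (z : Circle) : ((mz z : Circle) : ℂ) = -(z : ℂ) := rfl

theorem evR_T' (z : Circle) (n : ℤ) : evR z (LaurentPolynomial.T n : RO ℤ) = (z : ℂ) ^ n := by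
  unfold evR
  rw [LaurentPolynomial.eval₂_T, Units.val_zpow_eq_zpow_val]
  rfl

theorem evR_fz (z : Circle) (p : RO ℤ) : evR z (fz p) = evR (mz z) p := by
  have h := hom_eq ((evR z).comp fz) (evR (mz z)) (fun n => by
    rw [RingHom.comp_apply, fz_T, map_mul, evR_T', evR_T', mz_coe]
    have h1 : evR z (LaurentPolynomial.C ((((-1 : ℤˣ) ^ n : ℤˣ) : ℤ)) : RO ℤ) = (-1 : ℂ) ^ n := by
      unfold evR
      rw [LaurentPolynomial.eval₂_C]
      change (((((-1 : ℤˣ) ^ n : ℤˣ) : ℤ)) : ℂ) = (-1) ^ n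
      rcases Int.even_or_odd n with h | h
      · rw [h.neg_one_zpow, h.neg_one_zpow]; simp
      · rw [h.neg_one_zpow, h.neg_one_zpow]; simp
    rw [h1, ← mul_zpow, neg_one_mul]) p
  exact h

section

variable {P L : Type} [Fintype P] [DecidableEq P] [AddCommGroup L]

/-- The flip of an element. -/
noncomputable def fl : AO ℤ L →+* AO ℤ L := AddMonoidAlgebra.mapRingHom L fz

theorem fl_coeff (D : AO ℤ L) (a : L) : (fl D).coeff a = fz (D.coeff a) := by
  simp [fl]

theorem fl_fl (D : AO ℤ L) : fl (fl D) = D := by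
  apply AddMonoidAlgebra.ext
  apply Finsupp.ext
  intro a
  rw [fl_coeff, fl_coeff, fz_fz]

/-- The flip as an automorphism. -/
noncomputable def flE : AO ℤ L ≃+* AO ℤ L :=
  RingEquiv.ofRingHom fl fl (RingHom.ext fun D => fl_fl D) (RingHom.ext fun D => fl_fl D)

theorem supp_fl (D : AO ℤ L) : supp (fl D) = supp D := by
  ext a
  change (fl D).coeff a ≠ 0 ↔ D.coeff a ≠ 0
  rw [fl_coeff]
  constructor
  · intro h h0
    rw [h0, map_zero] at h
    exact h rfl
  · intro h h0
    apply h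
    apply fz_inj
    rw [h0, map_zero]

theorem support_fl (D : AO ℤ L) : (fl D).coeff.support = D.coeff.support := by
  ext a
  have h := Set.ext_iff.mp (supp_fl D) a
  rw [Finsupp.mem_support_iff, Finsupp.mem_support_iff]
  exact h

theorem spec_fl (z : Circle) (D : AO ℤ L) : spec z (fl D) = spec (mz z) D := by
  apply AddMonoidAlgebra.ext
  apply Finsupp.ext
  intro a
  rw [spec_coeff, spec_coeff, fl_coeff, evR_fz]

theorem stable_fl {D : AO ℤ L} (h : Stable D) : Stable (fl D) := by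
  obtain ⟨h0, lam, hl, hs⟩ := h
  refine ⟨?_, lam, ?_, ?_⟩
  · have h1 := Set.ext_iff.mp (supp_fl D) 0
    exact h1.mpr h0
  · intro a ha
    rw [support_fl] at ha
    exact hl a ha
  · intro z hz u s hs1
    rw [fl_coeff, evR_fz] at hz
    rw [spec_fl]
    exact hs (mz z) hz u s hs1

theorem sharp_fl (D : AO ℤ L) : sharp (fl D) = fl (sharp D) := by
  apply AddMonoidAlgebra.ext
  apply Finsupp.ext
  intro a
  rw [sharp_coeff', fl_coeff, fl_coeff, sharp_coeff', fz_rsh]

theorem dd_fl {phi : L →+ (P → ℤ)} {D : AO ℤ L} (h : DD phi D) : DD phi (fl D) := by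
  refine ⟨h.inj, ?_, stable_fl h.st, ?_, ?_, ?_⟩
  · intro a ha
    rw [supp_fl] at ha
    exact h.bin a ha
  · unfold Unitary
    rw [sharp_fl]
    exact h.un.map fl
  · exact (MulEquiv.irreducible_iff (flE : AO ℤ L ≃+* AO ℤ L)).mpr h.irr
  · rw [supp_fl]
    exact h.spn

/-- `FP` depends only on the support. -/
theorem fp_congr {phi : L →+ (P → ℤ)} {D D' : AO ℤ L} (h : FP phi D) (h' : DD phi D')
    (hs : supp D' = supp D) : FP phi D' := by
  refine ⟨h', ?_, ?_⟩
  · intro i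
    rw [hs]
    exact h.fac i
  · intro lam hn hne hr
    rw [hs] at hr
    refine h.all lam ?_ hne hr
    intro a ha
    apply hn
    rw [Finsupp.mem_support_iff] at ha ⊢
    have h1 := Set.ext_iff.mp hs a
    exact h1.mpr ha

theorem fp_fl {phi : L →+ (P → ℤ)} {D : AO ℤ L} (h : FP phi D) : FP phi (fl D) :=
  fp_congr h (dd_fl h.dd) (supp_fl D)

end

end Pool.Agent.B5.KE
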