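import Pool.Agent.Lib.MP_b5021c_nt.KE.H96.Fin
import Pool.Agent.Lib.MP_b5021c_nt.E.H61.Cusp

/-!
# MP_b5021c_nt, all `θ`, K even: the extremal closing A (PaperALL.md (E4), (E5))
-/

namespace Pool.Agent.B5.KE

open scoped LaurentPolynomial
open Polynomial
open Pool.Agent.B5.Nr.Sch
open Pool.Agent.B5.H61 (CuspS)
open Pool.Agent.MP_b5021c_nt (nz)

/-- `E` does not vanish at `-1` (CUSP). -/
theorem cusp_m1 (hCu : CuspS) {P L : Type} [Fintype P] [DecidableEq P] [AddCommGroup L]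
    [Module.Free ℤ L] [Module.Finite ℤ L] {phi : L →+ (P → ℤ)} {D : AO ℤ L} {S S1 : L}
    {q f : ℤ[X]} {e e1 : (RO ℤ)ˣ} {a : ℝ} (hD : DD phi D) (h2 : 2 ≤ Module.finrank ℤ L)
    (hR : RN D S q f e a) (hM : Mut D S S1 (ld e 1) e1)
    (hb : ∃ b : ℂ, ‖b‖ < 1 ∧ aeval b (q + X * f) = 0) {z : ℂ} (hz : ‖z‖ = 1) :
    aeval z (q + X * f) ≠ 0 := by
  have hD0 : D.coeff 0 = LaurentPolynomial.T 0 * toLaurent q := by
    rw [hR.D0, LaurentPolynomial.T_zero, one_mul]
  have hDS : ((ld e 1 : (RO ℤ)ˣ) : RO ℤ) * D.coeff S =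
      LaurentPolynomial.T 0 * toLaurent (X * f) := by
    have h1 := ld_S hR 1
    rw [pow_one] at h1
    rw [LaurentPolynomial.T_zero, one_mul]
    exact h1
  have hV : q + X * f ≠ 0 := by
    intro h0
    have h1 : (q + X * f).coeff 0 = 0 := by rw [h0, coeff_zero]
    rw [coeff_add, hR.loc.q0, coeff_X_mul_zero, add_zero] at h1
    exact one_ne_zero h1
  have h3 := hCu ℤ P L phi D S S1 (ld e 1) e1 0 q (X * f) hD h2 hM hD0 hDS
    (by
      unfold nz
      rw [roots_loc hR.loc, Multiset.card_singleton])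
    (fun w hw => by rw [ev_map]; exact q_ne hR.loc w hw) hV
    (by
      obtain ⟨b, hb1, hb2⟩ := hb
      exact ⟨b, hb1, by rw [ev_map]; exact hb2⟩) z hz
  rw [ev_map] at h3
  exact h3

/-- `c' ⋅ unit ⋅ h = X E` up to a constant. -/
theorem eq_E0 (hU : UnitRS) {c' h E : ℤ[X]} {w : RO ℤ} (hw : IsUnit w) (hc : c'.coeff 0 = 1)
    (hE : E.coeff 0 ≠ 0) (hh : h.coeff 0 ≠ 0)
    (he : w * toLaurent (c' * h) = toLaurent (X * E)) : ∃ s : ℤ, E = C s * (c' * h) := by
  obtain ⟨n, u, hu, hwu⟩ := (hU ℤ w).mp hw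
  have hu0 : u ≠ 0 := hu.ne_zero
  have h1 : (LaurentPolynomial.T n : RO ℤ) * toLaurent (C u * (c' * h)) =
      LaurentPolynomial.T 1 * toLaurent E := by
    rw [map_mul, toLaurent_C, ← mul_assoc, mul_comm (LaurentPolynomial.T n : RO ℤ), ← hwu, he,
      map_mul, toLaurent_X]
  have h00 : (C u * (c' * h)).coeff 0 = u * h.coeff 0 := by
    rw [mul_coeff_zero, coeff_C_zero, mul_coeff_zero, hc, one_mul]
  obtain ⟨-, h2⟩ := H56.nf_unique n 1 _ E (by rw [h00]; exact mul_ne_zero hu0 hh) hE h1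
  exact ⟨u, h2.symm⟩

/-- THE END: the closing A is extremal. -/
theorem end_A (hU : UnitRS) (hM1 : M1S) (hMm : MmulS) (hMV : MVS) (hE2 : E2S) (hSw : SewS)
    {Q K : Type} [Fintype Q] [DecidableEq Q] [AddCommGroup K] [Module.Free ℤ K]
    [Module.Finite ℤ K] {psi : K →+ (Q → ℤ)} {G : AO ℤ K} {T : K} {q f E : ℤ[X]} {a : ℝ} {j : ℕ}
    {c w : RO ℤ} (hloc : Loc q f a) (hu : f.coeff 0 = 1) (hj : 2 ≤ j) (haj : a < 1 / j)
    (hD : DD psi G) (hfr : Module.finrank ℤ K + 1 = 2 * j) (hV : ClassV j (G.coeff 0))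
    (hc : ClassV 1 c) (hT : Ray G T) (hw : IsUnit w) (hE : f - q = X * E)
    (hE0 : E.coeff 0 = j) (hEz : ∀ z : ℂ, ‖z‖ < 1 → aeval z E ≠ 0)
    (h0 : c * G.coeff 0 = toLaurent (q - f))
    (h1 : w * (c * G.coeff T) = toLaurent ((1 + X) * f))
    (hcusp : (aeval (-1 : ℂ) (q + X * f) : ℂ) ≠ 0) : (j : ℝ) ≤ a⁻¹ - a := by
  have hEm : E.eval (-1) ≠ 0 := by
    intro h2
    apply hcusp
    have h3 : (aeval (-1 : ℂ) E : ℂ) = 0 := by
      have h4 : (-1 : ℂ) = algebraMap ℤ ℂ (-1) := by simp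
      rw [h4, aeval_algebraMap_apply]
      change algebraMap ℤ ℂ (aeval (-1 : ℤ) E) = 0
      rw [coe_aeval_eq_eval, h2, map_zero]
    have h5 := congrArg (fun p : ℤ[X] => (aeval (-1 : ℂ) p : ℂ)) hE
    simp only [map_sub, map_mul, aeval_X, h3, mul_zero] at h5
    rw [map_add, map_mul, aeval_X]
    linear_combination -h5
  have hjE : E.coeff 0 ≠ 0 := by
    rw [hE0]
    exact_mod_cast (by omega : j ≠ 0)
  have hp : ((1 + X) * f).coeff 0 = 1 := by
    rw [mul_coeff_zero, hu]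
    simp
  obtain ⟨c', g', hc', hg', hcg, ⟨u, huc⟩, ⟨v, hvg⟩⟩ := split_one hU hp hw h1
  have hqf : (toLaurent (q - f) : RO ℤ) = -toLaurent (X * E) := by
    rw [← hE, ← map_neg]
    congr 1
    ring
  rcases hSw Q K psi G j hj hD hV hfr with hz | ⟨k, t, w0, hk, hG0, hrays⟩
  · -- z-free
    exfalso
    obtain ⟨b1, k1, hb1, hG1⟩ := zfree_mono hz T hT.1
    obtain ⟨b0, k0, hb0, hG0⟩ := zfree_mono hz 0 ((hMV ℤ).1 _ _ hV).1
    have hg1 : g' = 1 := by
      obtain ⟨n, s, hs, hvs⟩ := (hU ℤ _).mp v.isUnit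
      have h2 : (LaurentPolynomial.T 0 : RO ℤ) * toLaurent g' =
          LaurentPolynomial.T (n + k1) * toLaurent (C (s * b1)) := by
        rw [LaurentPolynomial.T_zero, one_mul, ← hvg, hG1, hvs, toLaurent_C, map_mul,
          LaurentPolynomial.T_add]
        ring
      obtain ⟨-, h3⟩ := H56.nf_unique 0 _ g' _ (by rw [hg']; exact one_ne_zero)
        (by rw [coeff_C_zero]; exact mul_ne_zero hs.ne_zero hb1) h2
      have h4 : g'.coeff 0 = s * b1 := by rw [h3, coeff_C_zero]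
      rw [h3, ← h4, hg', C_1]
    rw [hg1, mul_one] at hcg
    have h2 : (-(u : RO ℤ) * LaurentPolynomial.T k0) * toLaurent (c' * C b0) =
        toLaurent (X * E) := by
      rw [← neg_eq_iff_eq_neg.mpr hqf, ← h0, hG0, huc, map_mul, toLaurent_C]
      ring
    obtain ⟨s, hs⟩ := eq_E0 hU (by
      apply IsUnit.mul u.isUnit.neg
      exact (hU ℤ _).mpr ⟨k0, 1, isUnit_one, by rw [map_one, one_mul]⟩) hc' hjE
      (by rw [coeff_C_zero]; exact hb0) h2
    apply hEm
    rw [hs, ← hcg]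
    simp
  · -- levels
    obtain ⟨r, hr⟩ := hrays T hT v g' hg' hvg
    have hh0 : (C (j : ℤ) + C t * X ^ k : ℤ[X]).coeff 0 = j := by
      rw [coeff_add, coeff_C_zero, mul_coeff_zero, coeff_X_pow, if_neg (by omega), mul_zero,
        add_zero]
    have h2 : (-(u : RO ℤ) * (w0 : RO ℤ)) * toLaurent (c' * (C (j : ℤ) + C t * X ^ k)) =
        toLaurent (X * E) := by
      rw [← neg_eq_iff_eq_neg.mpr hqf, ← h0, hG0, huc, map_mul]
      ring
    have hEc : E = c' * (C (j : ℤ) + C t * X ^ k) :=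
      eq_E hU (IsUnit.mul u.isUnit.neg w0.isUnit) hc' hjE (by rw [hh0, hE0]) h2
    have hMc : M (toLaurent c' : RO ℤ) = 1 := by
      have h3 := ((hMV ℤ).1 _ _ hc).2
      have hc0 : (toLaurent c' : RO ℤ) ≠ 0 := by
        rw [toLaurent_ne_zero]
        intro h4
        rw [h4, coeff_zero] at hc'
        exact zero_ne_one hc'
      rw [huc, (hMm ℤ).1 _ _ u.ne_zero hc0, (hMm ℤ).2.2 _ u.isUnit, one_mul] at h3
      exact h3
    have hq1 : q = f - X * E := by rw [← hE]; ring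
    have hdvd : c' ∣ (1 + X) * q := by
      refine ⟨g' - X * (1 + X) * (C (j : ℤ) + C t * X ^ k), ?_⟩
      calc (1 + X) * q = (1 + X) * f - X * (1 + X) * E := by rw [hq1]; ring
        _ = c' * g' - X * (1 + X) * (c' * (C (j : ℤ) + C t * X ^ k)) := by rw [hcg, ← hEc]
        _ = _ := by ring
    have hc1 : c' = 1 := by
      rcases c_dvd hU hM1 hMm (fun z hz => q_ne hloc z hz) hc' hMc hdvd with h3 | h3
      · exact h3
      · exfalso
        apply hEm
        rw [hEc, h3]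
        simp
    rw [hc1, one_mul] at hcg hEc
    -- the second coefficient
    have ht : |t| < j := by
      apply t_lt hk
      intro z hz
      have h3 : (aeval z E : ℂ) = (j : ℂ) + t * z ^ k := by
        rw [hEc, map_add, map_mul, map_pow, aeval_X, aeval_C, aeval_C]
        simp
      rw [← h3]
      rcases lt_or_eq_of_le hz with h4 | h4
      · exact hEz z h4
      · obtain ⟨zc, rfl⟩ := circle_of z h4
        have h5 := (hE2 ℤ Q K psi G hD (by omega)).1 zc
        rw [hG0, map_mul, evR_poly, ← hEc] at h5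
        exact fun h6 => h5 (by rw [h6, mul_zero])
    obtain ⟨ht1, ht2⟩ := abs_lt.mp ht
    have hqa : (aeval a q : ℝ) = 0 := by
      obtain ⟨s, hs, -⟩ := hloc.s
      have h3 : (aeval a q : ℝ) = (q.map (Int.castRingHom ℝ)).eval a := by
        rw [eval_map, aeval_def]; rfl
      rw [h3, hs]
      simp
    refine e5c (t := t) (r := r) hloc.a0 haj hj hk (by omega) (by omega) hqa (hcg.trans hr) ?_
    rw [← hEc]
    exact hq1

end Pool.Agent.B5.KE
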