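import Pool.Agent.Lib.MP_b5021c_nt.KE.H96.Two
import Pool.Agent.Lib.MP_b5021c_nt.E.H56.T2o
import Pool.Agent.Lib.MP_b5021c_nt.IfaceKE

/-!
# MP_b5021c_nt, all `θ`, K even: the final contradictions (one variable)
-/

namespace Pool.Agent.B5.KE

open Polynomial
open Pool.Agent.B5.Nr.Sch

theorem aC (a : ℝ) (c : ℤ) : (aeval a (C c : ℤ[X]) : ℝ) = c := by
  rw [aeval_C, eq_intCast]

/-- (E5), `c~ = 1 + ε X^k`. -/
theorem e5a {q f : ℤ[X]} {a : ℝ} {j t k : ℕ} {ep : ℤ} (ha0 : 0 < a) (ha1 : a < 1)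
    (ht : 1 ≤ t) (htj : t + 1 ≤ j) (hk : 1 ≤ k) (hep : ep = 1 ∨ ep = -1)
    (hqa : (aeval a q : ℝ) = 0) (hg : (1 + X) * f = 1 + C ep * X ^ k)
    (hq : q = f - X * (C (j : ℤ) + C (t * ep) * X ^ k)) : (j : ℝ) ≤ a⁻¹ - a := by
  obtain ⟨F, hF⟩ : ∃ F : ℝ, F = aeval a f := ⟨_, rfl⟩
  have h1 : (1 + a) * F = 1 + ep * a ^ k := by
    have := congrArg (fun p : ℤ[X] => (aeval a p : ℝ)) hg
    simp only [map_mul, map_add, map_one, aeval_X, map_pow, ← hF, aC] at this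
    exact this
  have h2 : F = a * (j + t * (ep * a ^ k)) := by
    have := congrArg (fun p : ℤ[X] => (aeval a p : ℝ)) hq
    rw [map_sub, map_mul, map_add, aeval_X, ← hF, hqa, map_mul (aeval a) (C _), map_pow, aeval_X,
      aC, aC] at this
    push_cast at this
    linarith
  obtain ⟨E, hE⟩ : ∃ E : ℝ, E = ep * a ^ k := ⟨_, rfl⟩
  rw [← hE] at h1 h2
  have hak : a ^ k ≤ a := by
    calc a ^ k ≤ a ^ 1 := pow_le_pow_of_le_one ha0.le ha1.le hk
      _ = a := pow_one a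
  have hak0 : 0 < a ^ k := pow_pos ha0 k
  have hEa : E ≤ a ∧ -a ≤ E := by
    rcases hep with h | h <;> rw [hE, h] <;> push_cast <;> constructor <;> linarith
  have ht' : (1 : ℝ) ≤ t := by exact_mod_cast ht
  have htj' : (t : ℝ) + 1 ≤ j := by exact_mod_cast htj
  -- `P = 1 + E`
  have h3 : (1 + E) * (1 - a * (1 + a) * t) = a * (1 + a) * (j - t) := by
    have : (1 + a) * (a * (j + t * E)) = 1 + E := by rw [← h2]; exact h1
    linear_combination -this
  have h4 : 0 < a * (1 + a) * (j - t) := by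
    apply mul_pos (by positivity) (by linarith)
  have h5 : 0 < 1 + E := by linarith [hEa.2]
  have h6 : 0 < 1 - a * (1 + a) * t := by
    by_contra hcon
    push Not at hcon
    have := mul_nonpos_of_nonneg_of_nonpos h5.le hcon
    linarith
  have h7 : a * (1 + a) * (j - t) ≤ (1 + a) * (1 - a * (1 + a) * t) := by
    rw [← h3]
    exact mul_le_mul_of_nonneg_right (by linarith [hEa.1]) h6.le
  have h8 : a * (j - t) ≤ 1 - a * (1 + a) * t := by
    have h9 : 0 < 1 + a := by linarith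
    by_contra hcon
    push Not at hcon
    nlinarith
  have h9 : j * a ≤ 1 - a ^ 2 := by nlinarith
  have h10 : a⁻¹ - a = (1 - a ^ 2) / a := by field_simp
  rw [h10, le_div_iff₀ ha0]
  exact h9

/-- (E5), `c~ = 1 - ε (j - 2) X^k`. -/
theorem e5b {q f : ℤ[X]} {a : ℝ} {j k : ℕ} {ep : ℤ} (ha0 : 0 < a) (ha1 : a < 1)
    (hj : 2 ≤ j) (hk : 1 ≤ k) (hep : ep = 1 ∨ ep = -1) (haj : a ≤ 1 / j) (hwin : a⁻¹ - a < j)
    (hqa : (aeval a q : ℝ) = 0) (hg : (1 + X) * f = 1 - C (ep * (j - 2)) * X ^ k)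
    (hq : q = f - X * (C (j : ℤ) + C ep * X ^ k)) : False := by
  -- the value at `-1`
  have h0 : (0 : ℤ) = 1 - ep * (j - 2) * (-1) ^ k := by
    have := congrArg (fun p : ℤ[X] => p.eval (-1)) hg
    simp only [eval_mul, eval_add, eval_sub, eval_one, eval_X, eval_C, eval_pow] at this
    linarith
  have hsg : ((-1 : ℤ)) ^ k = 1 ∨ ((-1 : ℤ)) ^ k = -1 := neg_one_pow_eq_or ℤ k
  have hj3 : (j : ℤ) = 3 ∧ ep * (-1) ^ k = 1 := by
    have hj' : (2 : ℤ) ≤ j := by exact_mod_cast hj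
    rcases hep with h | h <;> rcases hsg with h' | h' <;> rw [h, h'] at h0 ⊢ <;>
      constructor <;> omega
  obtain ⟨hj3, hep1⟩ := hj3
  have hj3' : (j : ℝ) = 3 := by exact_mod_cast hj3
  obtain ⟨F, hF⟩ : ∃ F : ℝ, F = aeval a f := ⟨_, rfl⟩
  have h1 : (1 + a) * F = 1 - ep * a ^ k := by
    have := congrArg (fun p : ℤ[X] => (aeval a p : ℝ)) hg
    rw [map_mul, map_add, map_one, aeval_X, ← hF, map_sub, map_mul (aeval a) (C _), map_pow,
      aeval_X, aC, map_one, hj3] at this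
    push_cast at this
    linarith
  have h2 : F = a * (3 + ep * a ^ k) := by
    have := congrArg (fun p : ℤ[X] => (aeval a p : ℝ)) hq
    rw [map_sub, map_mul, map_add, aeval_X, ← hF, hqa, map_mul (aeval a) (C _), map_pow, aeval_X,
      aC, aC, hj3] at this
    push_cast at this
    linarith
  have haj' : a ≤ 1 / 3 := by rw [hj3'] at haj; exact haj
  have hw : 1 - a ^ 2 < 3 * a := by
    have h10 : a⁻¹ - a = (1 - a ^ 2) / a := by field_simp
    rw [h10, hj3', div_lt_iff₀ ha0] at hwin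
    exact hwin
  obtain ⟨E, hE⟩ : ∃ E : ℝ, E = ep * a ^ k := ⟨_, rfl⟩
  rw [← hE] at h1 h2
  have h3 : 1 - E = (1 + a) * (a * (3 + E)) := by rw [← h2]; exact h1.symm
  rcases eq_or_lt_of_le hk with hk1 | hk2
  · -- `k = 1`
    have hE1 : E = -a := by
      rw [← hk1, pow_one] at hep1 hE
      have : ep = -1 := by linarith
      rw [hE, this]; push_cast; ring
    rw [hE1] at h3
    have h4 : (1 + a) * (1 - a * (3 - a)) = 0 := by linear_combination h3
    have h5 : 1 - a * (3 - a) = 0 := (mul_eq_zero.mp h4).resolve_left (by linarith)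
    nlinarith
  · have hak : a ^ k ≤ a ^ 2 := pow_le_pow_of_le_one ha0.le ha1.le hk2
    have hak0 : 0 < a ^ k := pow_pos ha0 k
    have hEa : -(a ^ 2) ≤ E := by
      rcases hep with h | h <;> rw [hE, h] <;> push_cast <;> nlinarith
    -- `E (1 + a + a^2) < - a + a^2 + a^3`
    have h4 : E * (1 + a + a ^ 2) < -a + a ^ 2 + a ^ 3 := by nlinarith
    have h5 : -(a ^ 2) * (1 + a + a ^ 2) ≤ E * (1 + a + a ^ 2) :=
      mul_le_mul_of_nonneg_right hEa (by positivity)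
    have h6 : a * (1 - 2 * a - 2 * a ^ 2 - a ^ 3) < 0 := by nlinarith
    have h7 : 0 ≤ 1 - 2 * a - 2 * a ^ 2 - a ^ 3 := by
      nlinarith [pow_le_pow_left₀ ha0.le haj' 2, pow_le_pow_left₀ ha0.le haj' 3]
    have := mul_nonneg ha0.le h7
    linarith

theorem M_poly_dvd (hMm : MmulS) {c d : ℤ[X]} (hc : c ≠ 0) (hM : M (toLaurent c : RO ℤ) = 1)
    (h : d ∣ c) : M (toLaurent d : RO ℤ) = 1 := by
  obtain ⟨m1, m2, -⟩ := hMm ℤ
  obtain ⟨e, he⟩ := h
  have hd : d ≠ 0 := fun h0 => hc (by rw [he, h0, zero_mul])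
  have he0 : e ≠ 0 := fun h0 => hc (by rw [he, h0, mul_zero])
  rw [he, map_mul, m1 _ _ (toLaurent_ne_zero.mpr hd) (toLaurent_ne_zero.mpr he0)] at hM
  have h1 := m2 (toLaurent d : RO ℤ)
  have h2 := m2 (toLaurent e : RO ℤ)
  nlinarith

/-- A polynomial with `p(0) ≠ 0` which is a unit in the ring of Laurent polynomials. -/
theorem unit_poly (hU : UnitRS) {p : ℤ[X]} (h0 : p.coeff 0 ≠ 0)
    (h : IsUnit (toLaurent p : RO ℤ)) : IsUnit p := by
  obtain ⟨n, u, hu, h1⟩ := (hU ℤ _).mp h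
  have h2 : (LaurentPolynomial.T 0 : RO ℤ) * toLaurent p =
      LaurentPolynomial.T n * toLaurent (C u) := by
    rw [LaurentPolynomial.T_zero, one_mul, h1, toLaurent_C, mul_comm]
  have hu0 : u ≠ 0 := hu.ne_zero
  obtain ⟨-, h3⟩ := H56.nf_unique 0 n p (C u) h0 (by rwa [coeff_C_zero]) h2
  rw [h3]
  exact isUnit_C.mpr hu

/-- Zeros on the circle, polynomials. -/
theorem evR_poly (z : Circle) (p : ℤ[X]) : evR z (toLaurent p : RO ℤ) = aeval (z : ℂ) p := by
  unfold evR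
  rw [LaurentPolynomial.eval₂_toLaurent, ← ev_map, eval_map]
  rfl

/-- An element of measure one which divides `q` (no zeros on the circle). -/
theorem unit_of_dvd (hU : UnitRS) (hM1 : M1S) {q d : ℤ[X]}
    (hq : ∀ z : ℂ, ‖z‖ = 1 → aeval z q ≠ 0) (hd0 : d.coeff 0 ≠ 0) (hdq : d ∣ q)
    (hM : M (toLaurent d : RO ℤ) = 1) : IsUnit d := by
  apply unit_poly hU hd0
  apply hM1 ℤ _ _ hM
  · intro z hz
    obtain ⟨e, he⟩ := hdq
    apply hq (z : ℂ) (Circle.norm_coe z)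
    rw [he, map_mul, ← evR_poly, hz, zero_mul]
  · intro h
    apply hd0
    rw [toLaurent_eq_zero.mp h, coeff_zero]

/-- A cyclotomic factor of `(1 + X) q`. -/
theorem c_dvd (hU : UnitRS) (hM1 : M1S) (hMm : MmulS) {q c : ℤ[X]}
    (hq : ∀ z : ℂ, ‖z‖ = 1 → aeval z q ≠ 0) (hc0 : c.coeff 0 = 1)
    (hM : M (toLaurent c : RO ℤ) = 1) (hd : c ∣ (1 + X) * q) : c = 1 ∨ c = 1 + X := by
  have hcne : c ≠ 0 := by
    intro h
    rw [h, coeff_zero] at hc0
    exact zero_ne_one hc0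
  have hrel : IsRelPrime c q := by
    intro d hdc hdq
    apply unit_of_dvd hU hM1 hq _ hdq (M_poly_dvd hMm hcne hM hdc)
    intro h0
    obtain ⟨e, he⟩ := hdc
    rw [he, mul_coeff_zero, h0, zero_mul] at hc0
    exact zero_ne_one hc0
  have h1 : c ∣ 1 + X := hrel.dvd_of_dvd_mul_right hd
  have hirr : Irreducible (1 + X : ℤ[X]) := by
    have : (1 + X : ℤ[X]) = X - C (-1) := by rw [C_neg, sub_neg_eq_add, C_1, add_comm]
    rw [this]
    exact irreducible_X_sub_C (-1)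
  obtain ⟨e, he⟩ := h1
  rcases hirr.isUnit_or_isUnit he with h2 | h2
  · left
    obtain ⟨r, hr, hr2⟩ := Polynomial.isUnit_iff.mp h2
    rw [← hr2, coeff_C_zero] at hc0
    rw [← hr2, hc0, C_1]
  · right
    obtain ⟨r, hr, hr2⟩ := Polynomial.isUnit_iff.mp h2
    have h3 : (1 + X : ℤ[X]).coeff 0 = c.coeff 0 * r := by
      rw [he, ← hr2, mul_coeff_zero, coeff_C_zero]
    rw [hc0, one_mul] at h3
    have h4 : r = 1 := by rw [← h3]; simp
    rw [he, ← hr2, h4, C_1, mul_one]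

end Pool.Agent.B5.KE
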